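import Pool.Agent.L5helper15.ST.Vals

set_option autoImplicit false

/-! # The truncated counting function at the points `B s` -/

namespace Pool.Agent.L5helper15.ST

open NumberField IsDedekindDomain Height Finset
open Pool.Agent.W231.V (ell fv fv_na fv_nat logHeight_le_of fv_support_finite sum_union_le logHeight₁_nat)
open Pool.Agent.W231.H (lin lin_eval Bad)
open Pool.Agent.W231.G (exists_bad fv_mv_le)

section

variable {K : Type*} [Field K]

/-- the parametrization -/
theorem exists_pt {n : ℕ} (L : Fin (n + 1) → Fin (n + 1) → K) (hL : LinearIndependent K L)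
    (z : Fin (n + 1) → K) : ∃ B : Fin (n + 1) → Fin (n + 1) → K,
      (∀ (s : Fin (n + 1) → K) (j), ∑ k, L j k * (∑ i, B k i * s i) = (∑ k, L j k * z k) * s j) ∧
      (∀ k, ∑ i, B k i = z k) ∧ ((∀ j, ∑ k, L j k * z k ≠ 0) → ∀ y : Fin (n + 1) → K,
        ∃ s : Fin (n + 1) → K, ∀ k, ∑ i, B k i * s i = y k) := by
  classical
  have hdet : IsUnit (Matrix.of L) := by
    rw [← Matrix.linearIndependent_rows_iff_isUnit]
    exact hL
  obtain ⟨u, hu⟩ := hdet
  obtain ⟨N, hN⟩ : ∃ N : Matrix (Fin (n + 1)) (Fin (n + 1)) K, N = ((u⁻¹ : (Matrix (Fin (n + 1)) (Fin (n + 1)) K)ˣ) :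
    Matrix (Fin (n + 1)) (Fin (n + 1)) K) := ⟨_, rfl⟩
  have h1 : Matrix.of L * N = 1 := by rw [hN, ← hu]; exact u.mul_inv
  have h2 : N * Matrix.of L = 1 := by rw [hN, ← hu]; exact u.inv_mul
  have hNL : ∀ k m, ∑ i, N k i * L i m = if k = m then 1 else 0 := by
    intro k m
    have := congrFun (congrFun h2 k) m
    rw [Matrix.mul_apply, Matrix.one_apply] at this
    exact this
  refine ⟨fun k i => N k i * ∑ m, L i m * z m, fun s j => ?_, fun k => ?_, fun hz y =>
    ⟨fun i => (∑ m, L i m * z m)⁻¹ * ∑ m, L i m * y m, fun k => ?_⟩⟩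
  · have h3 : ∀ i, ∑ k, L j k * N k i = if j = i then 1 else 0 := by
      intro i
      have := congrFun (congrFun h1 j) i
      rw [Matrix.mul_apply, Matrix.one_apply] at this
      exact this
    calc ∑ k, L j k * (∑ i, N k i * (∑ m, L i m * z m) * s i)
        = ∑ i, (∑ k, L j k * N k i) * ((∑ m, L i m * z m) * s i) := by
          simp_rw [Finset.mul_sum, Finset.sum_mul]
          rw [Finset.sum_comm]
          refine Finset.sum_congr rfl fun i _ => Finset.sum_congr rfl fun k _ => ?_
          simp_rw [Finset.mul_sum]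
          refine Finset.sum_congr rfl fun m _ => ?_
          ring
      _ = _ := by
          simp_rw [h3]
          simp
  · calc ∑ i, N k i * (∑ m, L i m * z m) = ∑ m, (∑ i, N k i * L i m) * z m := by
          simp_rw [Finset.mul_sum, Finset.sum_mul]
          rw [Finset.sum_comm]
          refine Finset.sum_congr rfl fun m _ => Finset.sum_congr rfl fun i _ => ?_
          ring
      _ = _ := by
          simp_rw [hNL]
          simp
  · calc ∑ i, N k i * (∑ m, L i m * z m) * ((∑ m, L i m * z m)⁻¹ * ∑ m, L i m * y m)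
        = ∑ i, N k i * (∑ m, L i m * y m) := by
          refine Finset.sum_congr rfl fun i _ => ?_
          rw [mul_assoc, mul_inv_cancel_left₀ (hz i)]
      _ = ∑ m, (∑ i, N k i * L i m) * y m := by
          simp_rw [Finset.mul_sum, Finset.sum_mul]
          rw [Finset.sum_comm]
          refine Finset.sum_congr rfl fun m _ => Finset.sum_congr rfl fun i _ => ?_
          ring
      _ = _ := by
          simp_rw [hNL]
          simp

/-- the point with parameter `s` -/
def pnt {n : ℕ} (B : Fin (n + 1) → Fin (n + 1) → K) (s : Fin (n + 1) → K) (k : Fin (n + 1)) : K :=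
  ∑ i, B k i * s i

/-- the substitution -/
noncomputable def sub {n : ℕ} (B : Fin (n + 1) → Fin (n + 1) → K) (k : Fin (n + 1)) :
    MvPolynomial (Fin (n + 1)) K := ∑ i, MvPolynomial.C (B k i) * MvPolynomial.X i

theorem sub_hom {n : ℕ} (B : Fin (n + 1) → Fin (n + 1) → K) (k : Fin (n + 1)) :
    (sub B k).IsHomogeneous 1 := by
  unfold sub
  refine MvPolynomial.IsHomogeneous.sum _ _ _ fun i _ => ?_
  have := (MvPolynomial.isHomogeneous_C (Fin (n + 1)) (B k i)).mul (MvPolynomial.isHomogeneous_X K i)
  rwa [zero_add] at this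

theorem eval_sub {n : ℕ} (B : Fin (n + 1) → Fin (n + 1) → K) (s : Fin (n + 1) → K)
    (P : MvPolynomial (Fin (n + 1)) K) :
    MvPolynomial.eval s (MvPolynomial.aeval (sub B) P) = MvPolynomial.eval (pnt B s) P := by
  rw [MvPolynomial.aeval_def, MvPolynomial.hom_eval₂]
  have h2 : (MvPolynomial.eval s).comp (algebraMap K (MvPolynomial (Fin (n + 1)) K)) =
      RingHom.id K := by ext c; simp
  rw [h2]
  change MvPolynomial.eval₂ (RingHom.id K) _ P = MvPolynomial.eval₂ (RingHom.id K) _ P
  congr 1
  funext k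
  simp [sub, pnt]

theorem totalDegree_sub {n : ℕ} (B : Fin (n + 1) → Fin (n + 1) → K) (E : MvPolynomial (Fin (n + 1)) K) :
    (MvPolynomial.aeval (sub B) E).totalDegree ≤ E.totalDegree := by
  rw [MvPolynomial.aeval_def, MvPolynomial.eval₂_eq']
  refine MvPolynomial.totalDegree_finsetSum_le fun m hm => ?_
  refine (MvPolynomial.totalDegree_mul _ _).trans ?_
  have h1 : ∑ l, m l ≤ E.totalDegree := by
    have := MvPolynomial.le_totalDegree hm
    rwa [Finsupp.sum_fintype _ _ (fun _ => rfl)] at this
  have h2 : (algebraMap K (MvPolynomial (Fin (n + 1)) K) (E.coeff m)).totalDegree = 0 := by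
    rw [MvPolynomial.algebraMap_eq]
    exact MvPolynomial.totalDegree_C _
  rw [h2, zero_add]
  refine (MvPolynomial.totalDegree_finsetProd _ _).trans (le_trans (Finset.sum_le_sum fun l _ => ?_) h1)
  refine (MvPolynomial.totalDegree_pow _ _).trans ?_
  calc m l * (sub B l).totalDegree ≤ m l * 1 := Nat.mul_le_mul_left _ (sub_hom B l).totalDegree_le
    _ = m l := mul_one _

end

variable {K : Type*} [Field K] [NumberField K]

theorem fv_smooth (v : HeightOneSpectrum (𝓞 K)) {M : ℕ} (hM : 1 ≤ fv v (M : K)) :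
    ∀ s : ℕ, 0 < s → (∀ p, p.Prime → p ∣ s → p ∣ M) → fv v (s : K) = 1 := by
  intro s
  induction s using Nat.strong_induction_on with
  | _ s ih =>
    intro hs hp
    rcases Nat.lt_or_ge 1 s with h1 | h1
    · have hpr : s.minFac.Prime := Nat.minFac_prime (by omega)
      obtain ⟨t, ht⟩ := s.minFac_dvd
      have ht0 : 0 < t := by
        rcases Nat.eq_zero_or_pos t with h0 | h0
        · rw [h0, mul_zero] at ht; omega
        · exact h0
      have hts : t < s := by
        rw [ht]
        have := hpr.two_le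
        nlinarith
      have h2 := ih t hts ht0 (fun p hpp hd => hp p hpp (by rw [ht]; exact Dvd.dvd.mul_left hd _))
      have h3 : fv v (s.minFac : K) = 1 := by
        obtain ⟨c, hc⟩ := hp s.minFac hpr s.minFac_dvd
        apply le_antisymm (fv_nat v _)
        rw [hc] at hM
        push_cast at hM
        rw [map_mul] at hM
        have h4 := fv_nat v c
        have h5 := (fv v).nonneg (s.minFac : K)
        calc (1 : ℝ) ≤ fv v (s.minFac : K) * fv v (c : K) := hM
          _ ≤ fv v (s.minFac : K) * 1 := by gcongr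
          _ = _ := mul_one _
      rw [ht]
      push_cast
      rw [map_mul, h2, mul_one]
      exact h3
    · have : s = 1 := by omega
      rw [this, Nat.cast_one, map_one]

/-- the main estimate -/
theorem core {n l d : ℕ} (L : Fin (n + 1) → Fin (n + 1) → K) (F : MvPolynomial (Fin (n + 1)) K)
    (hF : F ≠ 0) (hFd : F.IsHomogeneous d) (P : Fin l → MvPolynomial (Fin (n + 1)) K) (e : Fin l → ℕ)
    (hP : ∀ i, (P i).IsHomogeneous (e i)) (hdiv : (∏ j, lin (L j)) * (∏ i, P i) ∣ F)
    (z : Fin (n + 1) → K) (hz : ∀ i, MvPolynomial.eval z (P i) = 0)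
    (hzL : ∀ j, ∑ k, L j k * z k ≠ 0) (B : Fin (n + 1) → Fin (n + 1) → K)
    (hB1 : ∀ (s : Fin (n + 1) → K) (j), ∑ k, L j k * (∑ i, B k i * s i) = (∑ k, L j k * z k) * s j)
    (hB2 : ∀ k, ∑ i, B k i = z k) :
    ∃ C : ℝ, ∀ (s : Fin (n + 1) → ℕ) (M : ℕ) (U lam : ℝ), Finset.univ.gcd s = 1 → (∀ j, 0 < s j) →
      0 < M → (∀ j p, p.Prime → p ∣ s j → p ∣ M) → 1 ≤ U → 0 < lam → (∀ j, (s j : ℝ) ≤ U) →
      (∃ j, (s j : ℝ) = U) → (∀ j, |(s j : ℝ) - s 0| ≤ lam * U) →
      MvPolynomial.eval (pnt B (fun i => (s i : K))) F ≠ 0 →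
      {v : HeightOneSpectrum (𝓞 K) | Bad v F d (pnt B (fun i => (s i : K)))}.Finite ∧
      (∀ T : Finset (HeightOneSpectrum (𝓞 K)), (∀ v ∈ T, Bad v F d (pnt B (fun i => (s i : K)))) →
        ∑ v ∈ T, ell v ≤ (totalWeight K : ℝ) * (Real.log M + l * Real.log lam) +
          ((d : ℝ) - n - 1) * logHeight (pnt B (fun i => (s i : K))) + C) ∧
      logHeight (pnt B (fun i => (s i : K))) ≤ (totalWeight K : ℝ) * Real.log U + C := by
  classical
  obtain ⟨E, hE⟩ := hdiv
  have hLP0 : (∏ j, lin (L j)) * (∏ i, P i) ≠ 0 := by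
    intro h
    exact hF (by rw [hE, h, zero_mul])
  have hE0 : E ≠ 0 := by
    rintro rfl
    exact hF (by rw [hE, mul_zero])
  have hlinh : ∀ l : Fin (n + 1) → K, (lin l).IsHomogeneous 1 := by
    intro l
    unfold lin
    refine MvPolynomial.IsHomogeneous.sum _ _ _ fun j _ => ?_
    have := (MvPolynomial.isHomogeneous_C (Fin (n + 1)) (l j)).mul
      (MvPolynomial.isHomogeneous_X K j)
    rwa [zero_add] at this
  have hprodh : ((∏ j, lin (L j)) * (∏ i, P i)).IsHomogeneous ((n + 1) + ∑ i, e i) := by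
    refine MvPolynomial.IsHomogeneous.mul ?_ (MvPolynomial.IsHomogeneous.prod _ _ _ fun i _ => hP i)
    have := MvPolynomial.IsHomogeneous.prod (Finset.univ) (fun i => lin (L i)) (fun _ => 1)
      (fun i _ => hlinh (L i))
    simpa using this
  have hdeg : d = (n + 1) + ∑ i, e i + E.totalDegree := by
    have h1 := MvPolynomial.totalDegree_mul_of_isDomain hLP0 hE0
    rw [← hE, hFd.totalDegree hF, hprodh.totalDegree hLP0] at h1
    exact h1
  -- the factors in the parameters
  choose N hN0 hNi using fun i => scale (MvPolynomial.aeval (sub B) (P i))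
  obtain ⟨NE, hNE0, hNEi⟩ := scale (MvPolynomial.aeval (sub B) E)
  set Q : Fin l → MvPolynomial (Fin (n + 1)) K := fun i =>
    MvPolynomial.C (N i) * MvPolynomial.aeval (sub B) (P i) with hQ
  set QE : MvPolynomial (Fin (n + 1)) K := MvPolynomial.C NE * MvPolynomial.aeval (sub B) E with hQE
  have hQint : ∀ i m, IsIntegral ℤ ((Q i).coeff m) := by
    intro i m
    rw [hQ]
    simp only
    rw [MvPolynomial.coeff_C_mul]
    exact hNi i m
  have hQEint : ∀ m, IsIntegral ℤ (QE.coeff m) := by
    intro m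
    rw [hQE, MvPolynomial.coeff_C_mul]
    exact hNEi m
  have hQh : ∀ i, (Q i).IsHomogeneous (e i) := by
    intro i
    have h1 := (hP i).aeval (sub B) (fun k => sub_hom B k)
    have h2 := (MvPolynomial.isHomogeneous_C (Fin (n + 1)) (N i)).mul h1
    rwa [zero_add, one_mul] at h2
  have hQev : ∀ i (s : Fin (n + 1) → K), MvPolynomial.eval s (Q i) =
      N i * MvPolynomial.eval (pnt B s) (P i) := by
    intro i s
    rw [hQ]
    simp only
    rw [map_mul, MvPolynomial.eval_C, eval_sub]
  have hQEev : ∀ (s : Fin (n + 1) → K), MvPolynomial.eval s QE =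
      NE * MvPolynomial.eval (pnt B s) E := by
    intro s
    rw [hQE, map_mul, MvPolynomial.eval_C, eval_sub]
  have hone : pnt B (fun _ => (1 : K)) = z := by
    funext k
    unfold pnt
    simp_rw [mul_one]
    exact hB2 k
  have hQ1 : ∀ i, MvPolynomial.eval (fun _ => (1 : K)) (Q i) = 0 := by
    intro i
    rw [hQev, hone, hz i, mul_zero]
  have hQEdeg : QE.totalDegree ≤ E.totalDegree := by
    rw [hQE]
    refine (MvPolynomial.totalDegree_mul _ _).trans ?_
    rw [MvPolynomial.totalDegree_C, zero_add]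
    exact totalDegree_sub B E
  choose C1 hC1 using fun i => height_small (Q i) (hQh i) (hQint i) (hQ1 i)
  obtain ⟨C2, hC2⟩ := height_value QE hQEint
  -- the bad primes
  set cs : Finset K := F.support.image F.coeff ∪ univ.image (fun p : Fin (n + 1) × Fin (n + 1) => B p.1 p.2) ∪
    univ.image N ∪ {NE} ∪ univ.image (fun j => ∑ k, L j k * z k) with hcs
  obtain ⟨T0, hT0⟩ := exists_bad cs
  have hcF : ∀ v ∉ T0, ∀ m, fv v (F.coeff m) ≤ 1 := by
    intro v hv m
    by_cases h : F.coeff m = 0
    · rw [h, map_zero]; exact zero_le_one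
    · refine (hT0 v hv _ ?_).2
      have : F.coeff m ∈ F.support.image F.coeff :=
        Finset.mem_image.2 ⟨m, MvPolynomial.mem_support_iff.2 h, rfl⟩
      simp only [hcs, Finset.mem_union]; tauto
  have hcB : ∀ v ∉ T0, ∀ k i, fv v (B k i) ≤ 1 := by
    intro v hv k i
    refine (hT0 v hv _ ?_).2
    have : B k i ∈ univ.image (fun p : Fin (n + 1) × Fin (n + 1) => B p.1 p.2) :=
      Finset.mem_image.2 ⟨(k, i), mem_univ _, rfl⟩
    simp only [hcs, Finset.mem_union]; tauto
  have hcN : ∀ v ∉ T0, ∀ i, fv v (N i) = 1 := by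
    intro v hv i
    refine (hT0 v hv _ ?_).1 (hN0 i)
    have : N i ∈ univ.image N := Finset.mem_image.2 ⟨i, mem_univ _, rfl⟩
    simp only [hcs, Finset.mem_union]; tauto
  have hcNE : ∀ v ∉ T0, fv v NE = 1 := by
    intro v hv
    refine (hT0 v hv _ ?_).1 hNE0
    simp only [hcs, Finset.mem_union, Finset.mem_singleton]; tauto
  have hcz : ∀ v ∉ T0, ∀ j, fv v (∑ k, L j k * z k) = 1 := by
    intro v hv j
    refine (hT0 v hv _ ?_).1 (hzL j)
    have : (∑ k, L j k * z k) ∈ univ.image (fun j => ∑ k, L j k * z k) :=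
      Finset.mem_image.2 ⟨j, mem_univ _, rfl⟩
    simp only [hcs, Finset.mem_union]; tauto
  -- heights
  set A : Fin (n + 1) × Fin (n + 1) → K := fun p => (∑ k, L p.1 k * z k)⁻¹ * L p.1 p.2 with hA
  set CA : ℝ := totalWeight K * Real.log (Nat.card (Fin (n + 1))) + logHeight A with hCA
  set B' : Fin (n + 1) × Fin (n + 1) → K := fun p => B p.1 p.2 with hB'
  set CB : ℝ := totalWeight K * Real.log (Nat.card (Fin (n + 1))) + logHeight B' with hCB
  have hw0 : (0 : ℝ) ≤ totalWeight K := Nat.cast_nonneg _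
  obtain ⟨C, hC⟩ : ∃ C : ℝ, C = |∑ v ∈ T0, ell v| + ∑ i, |C1 i| + |C2| +
    (∑ i, (e i : ℝ) + E.totalDegree) * |CA| + |CB| := ⟨_, rfl⟩
  refine ⟨C, fun s M U lam hs1 hs0 hM hsM hU hlam hsU hsU' hclose hne => ?_⟩
  set x : Fin (n + 1) → K := pnt B (fun i => (s i : K)) with hx
  have hU0 : 0 < U := by linarith
  -- values
  have hFev : MvPolynomial.eval x F = (∏ j, ((∑ k, L j k * z k) * (s j : K))) *
      (∏ i, MvPolynomial.eval x (P i)) * MvPolynomial.eval x E := by
    rw [hE, map_mul, map_mul, map_prod, map_prod]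
    congr 2
    refine Finset.prod_congr rfl fun j _ => ?_
    rw [lin_eval]
    exact hB1 _ j
  rw [hFev] at hne
  have hneE : MvPolynomial.eval x E ≠ 0 := right_ne_zero_of_mul hne
  have hneP : ∀ i, MvPolynomial.eval x (P i) ≠ 0 := by
    have h1 := right_ne_zero_of_mul (left_ne_zero_of_mul hne)
    intro i
    exact Finset.prod_ne_zero_iff.mp h1 i (mem_univ i)
  -- the list of numbers
  set u : Option (Option (Fin l)) → K := fun o => match o with
    | none => (M : K)
    | some none => MvPolynomial.eval (fun i => (s i : K)) QE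
    | some (some i) => MvPolynomial.eval (fun i => (s i : K)) (Q i) with hu
  have hu0 : ∀ o, u o ≠ 0 := by
    rintro (_ | _ | i)
    · simp only [hu]
      exact_mod_cast hM.ne'
    · simp only [hu]
      rw [hQEev]
      exact mul_ne_zero hNE0 hneE
    · simp only [hu]
      rw [hQev]
      exact mul_ne_zero (hN0 i) (hneP i)
  have key : ∀ v, Bad v F d x → v ∈ T0 ∨ ∃ o ∈ (univ : Finset (Option (Option (Fin l)))), fv v (u o) < 1 := by
    intro v hbad
    by_cases hv : v ∈ T0
    · exact Or.inl hv
    right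
    by_contra hcon
    push Not at hcon
    have g1 : 1 ≤ fv v (M : K) := hcon none (mem_univ _)
    have g2 : 1 ≤ fv v (MvPolynomial.eval (fun i => (s i : K)) QE) := hcon (some none) (mem_univ _)
    have g3 : ∀ i, 1 ≤ fv v (MvPolynomial.eval (fun i => (s i : K)) (Q i)) :=
      fun i => hcon (some (some i)) (mem_univ _)
    have i0 : ∀ k, fv v (x k) ≤ 1 := by
      intro k
      refine fv_sum_le' v _ _ zero_le_one fun i _ => ?_
      rw [map_mul]
      exact mul_le_one₀ (hcB v hv k i) ((fv v).nonneg _) (fv_nat v _)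
    have hval : 1 ≤ fv v (MvPolynomial.eval x F) := by
      rw [hFev, map_mul, map_mul, map_prod, map_prod]
      have e1 : ∏ j, fv v ((∑ k, L j k * z k) * (s j : K)) = 1 := by
        refine Finset.prod_eq_one fun j _ => ?_
        rw [map_mul, hcz v hv j, one_mul]
        exact fv_smooth v g1 (s j) (hs0 j) (hsM j)
      have e2 : 1 ≤ ∏ i, fv v (MvPolynomial.eval x (P i)) := by
        have e4 : ∀ i ∈ (univ : Finset (Fin l)), (1 : ℝ) ≤ fv v (MvPolynomial.eval x (P i)) := by
          intro i _
          have := g3 i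
          rwa [hQev, map_mul, hcN v hv i, one_mul] at this
        have e5 := Finset.prod_le_prod (f := fun _ : Fin l => (1 : ℝ)) (fun i _ => zero_le_one) e4
        rwa [Finset.prod_const_one] at e5
      have e3 : 1 ≤ fv v (MvPolynomial.eval x E) := by
        have := g2
        rwa [hQEev, map_mul, hcNE v hv, one_mul] at this
      rw [e1, one_mul]
      exact one_le_mul_of_one_le_of_one_le e2 e3
    unfold Bad at hbad
    have hs1 : (⨆ m, fv v (F.coeff m)) ≤ 1 := ciSup_le fun m => hcF v hv m
    have hs2 : (⨆ j, fv v (x j)) ≤ 1 := ciSup_le fun j => i0 j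
    have hs0 : 0 ≤ (⨆ j, fv v (x j)) := Real.iSup_nonneg fun j => (fv v).nonneg _
    have := mul_le_one₀ hs1 (pow_nonneg hs0 d) (pow_le_one₀ hs0 hs2)
    linarith
  -- the height
  have hh1 : (totalWeight K : ℝ) * Real.log U ≤ logHeight x + CA := by
    obtain ⟨j, hj⟩ := hsU'
    rw [← hj]
    refine (height_nat (K := K) s hs1 hs0 j).trans ?_
    have h2 := logHeight_linearMap_apply_le A x
    have h3 : (fun j => ∑ i, A (j, i) * x i) = fun i => (s i : K) := by
      funext j
      simp only [hA]
      simp_rw [mul_assoc]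
      rw [← Finset.mul_sum]
      have h4 : ∑ i, L j i * x i = (∑ k, L j k * z k) * (s j : K) := hB1 _ j
      rw [h4, inv_mul_cancel_left₀ (hzL j)]
    rw [h3] at h2
    linarith
  have hh2 : logHeight x ≤ (totalWeight K : ℝ) * Real.log U + CB := by
    have h2 := logHeight_linearMap_apply_le B' (fun i => (s i : K))
    have h3 : (fun j => ∑ i, B' (j, i) * (s i : K)) = x := rfl
    rw [h3] at h2
    have h4 : logHeight (fun i => (s i : K)) ≤ (totalWeight K : ℝ) * Real.log U := by
      refine logHeight_le_of ?_ hU0 ?_ ?_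
      · intro h
        have := congrFun h 0
        simp only [Pi.zero_apply, Nat.cast_eq_zero] at this
        exact (hs0 0).ne' this
      · intro w i
        have h5 : w (s i : K) = s i := by simp
        rw [h5]
        exact hsU i
      · intro v i
        exact fv_nat v _
    linarith
  have hlog0 : 0 ≤ Real.log U := Real.log_nonneg hU
  refine ⟨?_, fun T hT => ?_, ?_⟩
  · refine (T0.finite_toSet.union (Set.finite_iUnion fun o => fv_support_finite (hu0 o))).subset ?_
    intro v hv
    rcases key v hv with h | ⟨o, -, h⟩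
    · exact Or.inl h
    · exact Or.inr (Set.mem_iUnion.mpr ⟨o, h.ne⟩)
  · have h1 := sum_union_le univ u (fun o _ => hu0 o) T0 T (fun v hv => key v (hT v hv))
    rw [Fintype.sum_option, Fintype.sum_option] at h1
    simp only [hu] at h1
    have q1 : logHeight₁ (M : K) = (totalWeight K : ℝ) * Real.log M := logHeight₁_nat hM
    have q2 := hC2 s U hU hsU
    have q3 : ∑ i, logHeight₁ (MvPolynomial.eval (fun i => (s i : K)) (Q i)) ≤
        ∑ i, ((totalWeight K : ℝ) * (Real.log lam + e i * Real.log U) + |C1 i|) := by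
      refine Finset.sum_le_sum fun i _ => ?_
      have := hC1 i s U lam hU hlam hsU hclose (hu0 (some (some i)))
      have h2 := le_abs_self (C1 i)
      linarith
    have q4 : ∑ i, ((totalWeight K : ℝ) * (Real.log lam + e i * Real.log U) + |C1 i|) =
        (totalWeight K : ℝ) * (l * Real.log lam) + (∑ i, (e i : ℝ)) * (totalWeight K * Real.log U) +
          ∑ i, |C1 i| := by
      rw [Finset.sum_add_distrib, ← Finset.mul_sum, Finset.sum_add_distrib, Finset.sum_const, card_univ,
        Fintype.card_fin, nsmul_eq_mul, ← Finset.sum_mul]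
      ring
    have q5 : (totalWeight K : ℝ) * (QE.totalDegree * Real.log U) ≤
        E.totalDegree * (totalWeight K * Real.log U) := by
      have : (QE.totalDegree : ℝ) ≤ E.totalDegree := by exact_mod_cast hQEdeg
      calc (totalWeight K : ℝ) * (QE.totalDegree * Real.log U) ≤
          totalWeight K * (E.totalDegree * Real.log U) := by gcongr
        _ = _ := by ring
    have q6 : ((∑ i, (e i : ℝ)) + E.totalDegree) * (totalWeight K * Real.log U) ≤
        ((∑ i, (e i : ℝ)) + E.totalDegree) * (logHeight x + |CA|) := by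
      have h0 : 0 ≤ (∑ i, (e i : ℝ)) + E.totalDegree := by positivity
      have h2 := le_abs_self CA
      have h3 : (totalWeight K : ℝ) * Real.log U ≤ logHeight x + |CA| := by linarith
      gcongr
    have q7 : (d : ℝ) - n - 1 = (∑ i, (e i : ℝ)) + E.totalDegree := by
      rw [hdeg]; push_cast; ring
    have q8 := le_abs_self (∑ v ∈ T0, ell v)
    have q9 := le_abs_self C2
    have q10 := abs_nonneg CB
    rw [q7, hC]
    linarith
  · rw [hC]
    have h2 := le_abs_self CB
    have h3 : 0 ≤ ∑ i, |C1 i| := Finset.sum_nonneg fun i _ => abs_nonneg _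
    have h4 : 0 ≤ (∑ i, (e i : ℝ) + E.totalDegree) * |CA| := by positivity
    have h5 := abs_nonneg (∑ v ∈ T0, ell v)
    have h6 := abs_nonneg C2
    linarith

end Pool.Agent.L5helper15.ST
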