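import Pool.Agent.L5helper15.ST.Pigeon

set_option autoImplicit false

/-! # Many smooth numbers which are very close to each other -/

namespace Pool.Agent.L5helper15.ST

open Finset Filter

theorem ev_cheb : ∀ᶠ y : ℕ in atTop, 2 ≤ y ∧ (Nat.primeCounting y : ℝ) * Real.log y ≤ 2 * y ∧
    (y : ℝ) ≤ 2 * (Nat.primeCounting y * Real.log y) := by
  have h1 : ∀ᶠ x : ℝ in atTop, (Nat.primeCounting ⌊x⌋₊ : ℝ) ≤ (Real.log 4 + 1 / 10) * x / Real.log x :=
    Chebyshev.eventually_primeCounting_le (by norm_num)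
  have h1' := tendsto_natCast_atTop_atTop (R := ℝ) |>.eventually h1
  have h2 : ∀ᶠ x : ℝ in atTop, Real.log (x + 1) ≤ x / 10 := by
    have h3 := Real.isLittleO_log_id_atTop.bound (show (0 : ℝ) < 1 / 20 by norm_num)
    have h4 : Tendsto (fun x : ℝ => x + 1) atTop atTop := tendsto_atTop_add_const_right _ _ tendsto_id
    filter_upwards [h4.eventually h3, eventually_ge_atTop (1 : ℝ)] with x h5 h6
    simp only [id] at h5
    rw [Real.norm_of_nonneg (Real.log_nonneg (by linarith)), Real.norm_of_nonneg (by linarith)] at h5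
    linarith
  have h2' := tendsto_natCast_atTop_atTop (R := ℝ) |>.eventually h2
  filter_upwards [h1', h2', eventually_ge_atTop 2] with y h3 h4 h5
  rw [Nat.floor_natCast] at h3
  have hy : (2 : ℝ) ≤ y := by exact_mod_cast h5
  have hlog : 0 < Real.log y := Real.log_pos (by linarith)
  refine ⟨h5, ?_, ?_⟩
  · rw [le_div_iff₀ hlog] at h3
    have l4 : Real.log 4 = 2 * Real.log 2 := by
      rw [show (4 : ℝ) = 2 ^ 2 by norm_num, Real.log_pow]; norm_num
    have l2 := Real.log_two_lt_d9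
    have : (Real.log 4 + 1 / 10) * y ≤ 2 * y := by
      gcongr
      rw [l4]; linarith
    linarith
  · have h6 := Chebyshev.pi_ge y
    rw [div_le_iff₀ hlog] at h6
    have l2 := Real.log_two_gt_d9
    have : (y : ℝ) * (6 / 10) ≤ y * Real.log 2 := by
      gcongr
      linarith
    linarith

/-- the selection -/
theorem select (l : ℕ) (hl : 1 ≤ l) : ∃ c : ℝ, 0 < c ∧ ∃ h₀ : ℝ, ∀ h : ℝ, h₀ ≤ h → ∀ T : ℕ, 1 ≤ T →
    (T : ℝ) ≤ Real.exp (c * (h ^ ((l : ℝ) / (l + 1)) / Real.log h)) →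
    ∃ (M : ℕ) (A : Finset ℕ) (lam : ℝ), 0 < M ∧ 0 < lam ∧ T ≤ A.card ∧
      (∀ s ∈ A, 0 < s ∧ (∀ p, p.Prime → p ∣ s → p ∣ M) ∧ Real.log s ≤ h) ∧
      (∀ s ∈ A, ∀ t ∈ A, |(s : ℝ) - t| ≤ lam * max (s : ℝ) t) ∧
      Real.log M + l * Real.log lam ≤ -(c * (h ^ ((l : ℝ) / (l + 1)) / Real.log h)) := by
  obtain ⟨θ, hθ⟩ : ∃ θ : ℝ, θ = (l : ℝ) / (l + 1) := ⟨_, rfl⟩
  obtain ⟨c₀, hc₀⟩ : ∃ c₀ : ℝ, c₀ = Real.exp (-3) := ⟨_, rfl⟩
  have hl0 : (1 : ℝ) ≤ l := by exact_mod_cast hl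
  have hc₀0 : 0 < c₀ := by rw [hc₀]; exact Real.exp_pos _
  have hθ0 : 0 < θ := by rw [hθ]; positivity
  have hθ1 : θ ≤ 1 := by
    rw [hθ, div_le_one (by positivity)]; linarith
  have hθl : (l + 1) * θ = l := by rw [hθ]; field_simp
  rw [← hθ]
  have hlim : Tendsto (fun h : ℝ => c₀ * h ^ θ) atTop atTop :=
    (tendsto_rpow_atTop hθ0).const_mul_atTop hc₀0
  have hlimy : Tendsto (fun h : ℝ => ⌊c₀ * h ^ θ⌋₊) atTop atTop :=
    tendsto_nat_floor_atTop.comp hlim
  have hsmall : ∀ᶠ h : ℝ in atTop, 2 + Real.log h ≤ c₀ / 4 * (h ^ θ / Real.log h) := by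
    have h1 := (isLittleO_log_rpow_atTop (show 0 < θ / 2 by positivity)).bound
      (show (0 : ℝ) < c₀ / 12 by positivity)
    have h0 := (isLittleO_log_rpow_atTop (show 0 < θ / 2 by positivity)).bound
      (show (0 : ℝ) < 1 by norm_num)
    filter_upwards [h1, h0, eventually_ge_atTop (Real.exp 1)] with h h2 h2' h3
    have h4 : 1 ≤ Real.log h := by
      rw [Real.le_log_iff_exp_le (lt_of_lt_of_le (Real.exp_pos 1) h3)]; exact h3
    have h5 : 0 < h := lt_of_lt_of_le (Real.exp_pos 1) h3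
    rw [Real.norm_of_nonneg (by linarith), Real.norm_of_nonneg (by positivity)] at h2 h2'
    have h6 : h ^ θ = h ^ (θ / 2) * h ^ (θ / 2) := by
      rw [← Real.rpow_add h5]; congr 1; ring
    rw [mul_div_assoc', le_div_iff₀ (by linarith), h6]
    have h7 : (0 : ℝ) ≤ h ^ (θ / 2) := by positivity
    calc (2 + Real.log h) * Real.log h ≤ (3 * Real.log h) * Real.log h := by gcongr; linarith
      _ ≤ (3 * (c₀ / 12 * h ^ (θ / 2))) * (1 * h ^ (θ / 2)) := by gcongr
      _ = _ := by ring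
  have hev : ∀ᶠ h : ℝ in atTop, 1 < Real.log h ∧ 1 ≤ h ∧ 2 ≤ c₀ * h ^ θ ∧
      2 + Real.log h ≤ c₀ / 4 * (h ^ θ / Real.log h) ∧
      (2 ≤ ⌊c₀ * h ^ θ⌋₊ ∧ (Nat.primeCounting ⌊c₀ * h ^ θ⌋₊ : ℝ) * Real.log ⌊c₀ * h ^ θ⌋₊ ≤
        2 * ⌊c₀ * h ^ θ⌋₊ ∧ (⌊c₀ * h ^ θ⌋₊ : ℝ) ≤ 2 * (Nat.primeCounting ⌊c₀ * h ^ θ⌋₊ *
          Real.log ⌊c₀ * h ^ θ⌋₊)) := by
    filter_upwards [Real.tendsto_log_atTop.eventually_gt_atTop 1, eventually_ge_atTop 1,
      hlim.eventually_ge_atTop 2, hsmall, hlimy.eventually ev_cheb] with h h1 h2 h3 h4 h5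
    exact ⟨h1, h2, h3, h4, h5⟩
  obtain ⟨h₀, hh₀⟩ := eventually_atTop.mp hev
  refine ⟨c₀ / 4, by positivity, h₀, fun h hh T hT hTle => ?_⟩
  obtain ⟨a1, a2, a3, a4, b1, b2, b3⟩ := hh₀ h hh
  obtain ⟨y, hy⟩ : ∃ y : ℕ, y = ⌊c₀ * h ^ θ⌋₊ := ⟨_, rfl⟩
  obtain ⟨k, hk⟩ : ∃ k : ℕ, k = Nat.primeCounting y := ⟨_, rfl⟩
  obtain ⟨Eh, hEh⟩ : ∃ Eh : ℝ, Eh = h ^ θ / Real.log h := ⟨_, rfl⟩
  rw [← hEh] at a4 hTle ⊢
  rw [← hy, ← hk] at b2 b3
  rw [← hy] at b1
  have hh0 : 0 < h := by linarith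
  have hyR : (2 : ℝ) ≤ y := by exact_mod_cast b1
  have hy0 : (0 : ℝ) < y := by linarith
  have hlogy : 0 < Real.log y := Real.log_pos (by linarith)
  have hyle : (y : ℝ) ≤ c₀ * h ^ θ := by rw [hy]; exact Nat.floor_le (by positivity)
  have hyge : c₀ / 2 * h ^ θ ≤ y := by
    have := Nat.lt_floor_add_one (c₀ * h ^ θ)
    rw [← hy] at this
    linarith
  have hlog_y : Real.log y ≤ -3 + θ * Real.log h := by
    have := Real.log_le_log hy0 hyle
    rwa [Real.log_mul hc₀0.ne' (by positivity), Real.log_rpow hh0, hc₀, Real.log_exp] at this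
  have hlogh0 : 0 < Real.log h := by linarith
  have hθlog : θ * Real.log h ≤ Real.log h := by
    calc θ * Real.log h ≤ 1 * Real.log h := by gcongr
      _ = _ := one_mul _
  -- the number of primes
  have hkE : c₀ / 4 * Eh ≤ k := by
    have e1 : c₀ / 2 * h ^ θ ≤ 2 * (k * Real.log h) := by
      refine hyge.trans (b3.trans ?_)
      have : Real.log y ≤ Real.log h := by linarith
      gcongr
    rw [hEh, mul_div_assoc', div_le_iff₀ hlogh0]
    linarith
  have hk1 : (1 : ℝ) ≤ k := by linarith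
  -- the set
  obtain ⟨P, hP⟩ : ∃ P : Finset ℕ, P = Nat.primesLE y := ⟨_, rfl⟩
  have hPp : ∀ p ∈ P, p.Prime := by
    intro p hp
    rw [hP, Nat.primesLE_eq_filter_range, mem_filter] at hp
    exact hp.2
  have hPy : ∀ p ∈ P, p ≤ y := by
    intro p hp
    rw [hP, Nat.primesLE_eq_filter_range, mem_filter, mem_range] at hp
    omega
  have hPk : P.card = k := by
    rw [hP, hk]
    exact Nat.primesLE_card_eq_primeCounting y
  obtain ⟨E, hE⟩ : ∃ E : ℕ, E = ⌊h / (2 * y)⌋₊ := ⟨_, rfl⟩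
  have hE1 : (E : ℝ) ≤ h / (2 * y) := by rw [hE]; exact Nat.floor_le (by positivity)
  have hE2 : h / (2 * y) ≤ (E : ℝ) + 1 := by rw [hE]; exact (Nat.lt_floor_add_one _).le
  have hsum : ∑ p ∈ P, Real.log p ≤ k * Real.log y := by
    rw [← hPk, ← nsmul_eq_mul]
    refine Finset.sum_le_card_nsmul _ _ _ fun p hp => ?_
    apply Real.log_le_log
    · exact_mod_cast (hPp p hp).pos
    · exact_mod_cast hPy p hp
  have hlogA : ∀ s ∈ smooth P E, Real.log s ≤ h := by
    intro s hs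
    refine (mem_smooth P hPp E hs).2.2.trans ?_
    calc (E : ℝ) * ∑ p ∈ P, Real.log p ≤ h / (2 * y) * (2 * y) := by
          have : ∑ p ∈ P, Real.log p ≤ 2 * y := hsum.trans b2
          have h0 : 0 ≤ ∑ p ∈ P, Real.log p := Finset.sum_nonneg fun p _ => Real.log_natCast_nonneg p
          gcongr
      _ = h := by field_simp
  have hcardN : (smooth P E).card = (E + 1) ^ k := by rw [card_smooth P hPp E, hPk]
  have hE2log : Real.log h - Real.log 2 - Real.log y ≤ Real.log ((E : ℝ) + 1) := by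
    have := Real.log_le_log (by positivity) hE2
    rw [Real.log_div hh0.ne' (by positivity), Real.log_mul (by norm_num) hy0.ne'] at this
    linarith
  have l2 := Real.log_two_lt_d9
  have hbase : 2 ≤ Real.log ((E : ℝ) + 1) := by linarith
  have hlogN : Real.log ((smooth P E).card : ℝ) = k * Real.log ((E : ℝ) + 1) := by
    rw [hcardN]
    push_cast
    rw [Real.log_pow]
  have hN0 : (0 : ℝ) < ((smooth P E).card : ℝ) := by rw [hcardN]; positivity
  have hT0 : (0 : ℝ) < T := by exact_mod_cast hT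
  have hlogT : Real.log T ≤ c₀ / 4 * Eh := by
    have := Real.log_le_log hT0 hTle
    rwa [Real.log_exp] at this
  have hTA : 2 * T ≤ (smooth P E).card := by
    have h1 : Real.log (2 * T) ≤ Real.log ((smooth P E).card : ℝ) := by
      rw [Real.log_mul (by norm_num) hT0.ne', hlogN]
      have : (k : ℝ) * 2 ≤ k * Real.log ((E : ℝ) + 1) := by gcongr
      linarith
    have h2 := (Real.log_le_log_iff (by positivity) hN0).mp h1
    exact_mod_cast h2
  obtain ⟨A, hA1, hA2, hA3⟩ := pigeon (smooth P E) (fun s hs => (mem_smooth P hPp E hs).1) hh0 hlogA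
    hT hTA
  refine ⟨∏ p ∈ P, p, A, _, Finset.prod_pos fun p hp => (hPp p hp).pos, ?_, hA2, ?_, hA3, ?_⟩
  · positivity
  · intro s hs
    obtain ⟨h1, h2, -⟩ := mem_smooth P hPp E (hA1 hs)
    exact ⟨h1, fun p hp hd => Finset.dvd_prod_of_mem _ (h2 p hp hd), hlogA s (hA1 hs)⟩
  · push_cast
    rw [Real.log_prod (fun p hp => by exact_mod_cast (hPp p hp).ne_zero),
      Real.log_div (by positivity) hN0.ne', Real.log_mul (by positivity) hT0.ne',
      Real.log_mul (by norm_num) hh0.ne', hlogN]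
    have e1 : (l + 1) * Real.log y ≤ -3 * (l + 1) + l * Real.log h := by
      calc (l + 1) * Real.log y ≤ (l + 1) * (-3 + θ * Real.log h) := by gcongr
        _ = -3 * (l + 1) + ((l + 1) * θ) * Real.log h := by ring
        _ = _ := by rw [hθl]
    have e2 : (k : ℝ) * (Real.log h - Real.log 2 - Real.log y) ≤ k * Real.log ((E : ℝ) + 1) := by
      gcongr
    have e3 : (l : ℝ) * (k * (Real.log h - Real.log 2 - Real.log y)) ≤
        l * (k * Real.log ((E : ℝ) + 1)) := by gcongr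
    have e4 : (k : ℝ) * ((l + 1) * Real.log y - l * Real.log h + l * Real.log 2) ≤
        k * (-2 - 2 * l) := by
      have : (l : ℝ) * Real.log 2 ≤ l * 1 := by gcongr; linarith
      have h2 : (l + 1) * Real.log y - l * Real.log h + l * Real.log 2 ≤ -2 - 2 * l := by linarith
      gcongr
    have e5 : (l : ℝ) * (Real.log 2 + Real.log h + Real.log T) ≤ l * (2 * k) := by
      have : Real.log 2 + Real.log h + Real.log T ≤ 2 * k := by linarith
      gcongr
    linarith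

end Pool.Agent.L5helper15.ST
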