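import Pool.Agent.L5helper15.ST.Core
import Pool.Agent.L5helper15.ST.Select

set_option autoImplicit false

/-! # The lower bound for the error term -/

namespace Pool.Agent.L5helper15.ST

open NumberField IsDedekindDomain Height Finset Filter
open Pool.Agent.W231.V (ell fv fv_na fv_nat logHeight_le_of fv_support_finite sum_union_le
  logHeight₁_nat hom_eval₂ exists_point)
open Pool.Agent.W231.H (lin lin_eval Bad)

/-- avoiding a hypersurface with a tuple from a large set -/
theorem avoid {K : Type*} [Field K] {Ω : Type*} [Field Ω] [CharZero Ω] [Algebra K Ω] {n D : ℕ}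
    (B : Fin (n + 1) → Fin (n + 1) → K) (hsurj : ∀ y : Fin (n + 1) → K, ∃ s : Fin (n + 1) → K, pnt B s = y)
    (hinf : Infinite K) (G : MvPolynomial (Fin (n + 1)) Ω) (hG : G ≠ 0) (hGD : G.totalDegree ≤ D)
    (A : Finset ℕ) (hA : D < A.card) : ∃ s : Fin (n + 1) → ℕ, (∀ j, s j ∈ A) ∧
      MvPolynomial.eval (fun k => algebraMap K Ω (pnt B (fun i => (s i : K)) k)) G ≠ 0 := by
  classical
  set φ : K →+* Ω := algebraMap K Ω with hφ
  set f : Fin (n + 1) → MvPolynomial (Fin (n + 1)) Ω := sub (fun k i => φ (B k i)) with hf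
  set H : MvPolynomial (Fin (n + 1)) Ω := MvPolynomial.aeval f G with hH
  have hHev : ∀ s : Fin (n + 1) → Ω, MvPolynomial.eval s H =
      MvPolynomial.eval (pnt (fun k i => φ (B k i)) s) G := fun s => eval_sub _ s G
  have hpnt : ∀ s : Fin (n + 1) → K, pnt (fun k i => φ (B k i)) (fun i => φ (s i)) =
      fun k => φ (pnt B s k) := by
    intro s
    funext k
    simp [pnt]
  have hH0 : H ≠ 0 := by
    intro h0
    obtain ⟨y, hy, -⟩ := exists_point (K := K) G hG (∅ : Finset Unit) (fun _ _ => 0) (by simp)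
    obtain ⟨s, hs⟩ := hsurj y
    apply hy
    have h1 := hHev (fun i => φ (s i))
    rw [h0, map_zero, hpnt, hs] at h1
    exact h1.symm
  by_contra hcon
  push Not at hcon
  apply hH0
  have hcard : (A.image (fun a : ℕ => (a : Ω))).card = A.card :=
    Finset.card_image_of_injective _ Nat.cast_injective
  refine MvPolynomial.eq_zero_of_eval_zero_at_prod_finset H (fun _ => A.image (fun a : ℕ => (a : Ω))) ?_ ?_
  · intro i
    rw [hcard]
    refine lt_of_le_of_lt ?_ hA
    refine (MvPolynomial.degreeOf_le_totalDegree _ _).trans (le_trans ?_ hGD)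
    exact totalDegree_sub _ G
  · intro x hx
    choose s hs using fun i => Finset.mem_image.mp (hx i)
    have hxs : x = fun i => φ ((s i : K)) := by
      funext i
      rw [map_natCast]
      exact (hs i).2.symm
    rw [hxs, hHev, hpnt]
    exact hcon s (fun j => (hs j).1)

theorem pnt_mul {K : Type*} [Field K] {n : ℕ} (B : Fin (n + 1) → Fin (n + 1) → K) (g : K)
    (s : Fin (n + 1) → K) : pnt B (fun i => g * s i) = fun k => g * pnt B s k := by
  funext k
  unfold pnt
  rw [Finset.mul_sum]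
  refine Finset.sum_congr rfl fun i _ => ?_
  ring

theorem main {K : Type*} [Field K] [NumberField K] {n l d : ℕ} (hl : 1 ≤ l)
    (L : Fin (n + 1) → Fin (n + 1) → K) (hL : LinearIndependent K L)
    (F : MvPolynomial (Fin (n + 1)) K) (hF : F ≠ 0) (hFd : F.IsHomogeneous d)
    (P : Fin l → MvPolynomial (Fin (n + 1)) K) (e : Fin l → ℕ)
    (hP : ∀ i, (P i).IsHomogeneous (e i)) (hdiv : (∏ j, lin (L j)) * (∏ i, P i) ∣ F)
    (z : Fin (n + 1) → K) (hz : ∀ i, MvPolynomial.eval z (P i) = 0)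
    (hzL : ∀ j, ∑ k, L j k * z k ≠ 0) :
    ∃ c : ℝ, 0 < c ∧ ∃ H₀ : ℝ, ∀ H : ℝ, H₀ ≤ H → ∀ (Ω : Type*) [Field Ω] [Algebra K Ω]
      (G : MvPolynomial (Fin (n + 1)) Ω) (δ : ℕ), G ≠ 0 → G.IsHomogeneous δ →
      (δ : ℝ) ≤ Real.exp (c * (H ^ ((l : ℝ) / (l + 1)) / Real.log H)) →
      ∃ x : Fin (n + 1) → K, MvPolynomial.eval x F ≠ 0 ∧
        MvPolynomial.eval (fun j => algebraMap K Ω (x j)) G ≠ 0 ∧ logHeight x ≤ H ∧
        {v : HeightOneSpectrum (𝓞 K) | Bad v F d x}.Finite ∧
        ∀ T : Finset (HeightOneSpectrum (𝓞 K)), (∀ v ∈ T, Bad v F d x) →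
          ∑ v ∈ T, ell v ≤ ((d : ℝ) - n - 1) * logHeight x -
            c * (H ^ ((l : ℝ) / (l + 1)) / Real.log H) := by
  classical
  obtain ⟨B, hB1, hB2, hB3⟩ := exists_pt L hL z
  have hsurj : ∀ y : Fin (n + 1) → K, ∃ s : Fin (n + 1) → K, pnt B s = y := by
    intro y
    obtain ⟨s, hs⟩ := hB3 hzL y
    exact ⟨s, funext hs⟩
  obtain ⟨C, hC⟩ := core L F hF hFd P e hP hdiv z hz hzL B hB1 hB2
  obtain ⟨c₁, hc₁, h₁, hsel⟩ := select l hl
  obtain ⟨θ, hθ⟩ : ∃ θ : ℝ, θ = (l : ℝ) / (l + 1) := ⟨_, rfl⟩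
  have hl0 : (1 : ℝ) ≤ l := by exact_mod_cast hl
  have hθ0 : 0 < θ := by rw [hθ]; positivity
  have hθ1 : θ ≤ 1 := by
    rw [hθ, div_le_one (by positivity)]; linarith
  rw [← hθ] at hsel ⊢
  obtain ⟨w, hw⟩ : ∃ w : ℝ, w = (totalWeight K : ℝ) := ⟨_, rfl⟩
  have hw1 : 1 ≤ w := by
    rw [hw]
    exact_mod_cast totalWeight_pos (K := K)
  have hw0 : 0 < w := by linarith
  obtain ⟨c, hc⟩ : ∃ c : ℝ, c = c₁ / (8 * w) := ⟨_, rfl⟩
  have hc0 : 0 < c := by rw [hc]; positivity
  -- asymptotics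
  have hElim : Tendsto (fun H : ℝ => H ^ θ / Real.log H) atTop atTop := by
    rw [tendsto_atTop]
    intro b
    have h1 := (isLittleO_log_rpow_atTop hθ0).bound (show (0 : ℝ) < 1 / (|b| + 1) by positivity)
    filter_upwards [h1, eventually_gt_atTop 1] with H h2 h3
    have h4 : 0 < Real.log H := Real.log_pos h3
    rw [Real.norm_of_nonneg h4.le, Real.norm_of_nonneg (by positivity), one_div, inv_mul_eq_div,
      le_div_iff₀ (by positivity)] at h2
    rw [le_div_iff₀ h4]
    have := le_abs_self b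
    calc b * Real.log H ≤ (|b| + 1) * Real.log H := by gcongr; linarith
      _ = Real.log H * (|b| + 1) := by ring
      _ ≤ _ := h2
  have hev : ∀ᶠ H : ℝ in atTop, 2 * w ≤ H ∧ 1 < H / (2 * w) ∧ h₁ ≤ H / (2 * w) ∧ 2 * |C| ≤ H ∧
      (|C| + d + 2) / c ≤ H ^ θ / Real.log H := by
    have h1 : Tendsto (fun H : ℝ => H / (2 * w)) atTop atTop :=
      tendsto_id.atTop_div_const (by positivity)
    filter_upwards [eventually_ge_atTop (2 * w), h1.eventually_gt_atTop 1, h1.eventually_ge_atTop h₁,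
      eventually_ge_atTop (2 * |C|), hElim.eventually_ge_atTop ((|C| + d + 2) / c)] with H a1 a2 a3 a4 a5
    exact ⟨a1, a2, a3, a4, a5⟩
  obtain ⟨H₀, hH₀⟩ := eventually_atTop.mp hev
  refine ⟨c, hc0, H₀, fun H hH Ω _ _ G δ hG hGδ hδ => ?_⟩
  obtain ⟨a1, a2, a3, a4, a5⟩ := hH₀ H hH
  have : CharZero Ω := charZero_of_injective_algebraMap (algebraMap K Ω).injective
  obtain ⟨h, hh⟩ : ∃ h : ℝ, h = H / (2 * w) := ⟨_, rfl⟩
  rw [← hh] at a2 a3
  obtain ⟨EH, hEH⟩ : ∃ EH : ℝ, EH = H ^ θ / Real.log H := ⟨_, rfl⟩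
  rw [← hEH] at a5 hδ ⊢
  have hH1 : 1 < H := by linarith
  have hH0 : 0 < H := by linarith
  have hh0 : 0 < h := by linarith
  have hlogH : 0 < Real.log H := Real.log_pos hH1
  have hlogh : 0 < Real.log h := Real.log_pos a2
  have hhH : h ≤ H := by
    rw [hh]
    exact div_le_self hH0.le (by linarith)
  have hcEH : |C| + d + 2 ≤ c * EH := by
    rw [div_le_iff₀ hc0] at a5
    linarith
  have hCabs := abs_nonneg C
  have hd0 : (0 : ℝ) ≤ d := Nat.cast_nonneg d
  -- comparison of `E(h)` and `E(H)`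
  have hE4 : 4 * (c * EH) ≤ c₁ * (h ^ θ / Real.log h) := by
    have e1 : H ^ θ / (2 * w) ≤ h ^ θ := by
      rw [hh, Real.div_rpow hH0.le (by positivity)]
      apply div_le_div_of_nonneg_left (by positivity) (by positivity)
      calc (2 * w) ^ θ ≤ (2 * w) ^ (1 : ℝ) := Real.rpow_le_rpow_of_exponent_le (by linarith) hθ1
        _ = 2 * w := Real.rpow_one _
    have e2 : H ^ θ / (2 * w) / Real.log H ≤ h ^ θ / Real.log h := by
      have : Real.log h ≤ Real.log H := Real.log_le_log hh0 hhH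
      gcongr
    calc 4 * (c * EH) = c₁ * (H ^ θ / (2 * w) / Real.log H) := by
          rw [hc, hEH]; field_simp; ring
      _ ≤ _ := by gcongr
  -- the class
  obtain ⟨M, A, lam, hM, hlam, hT, hA1, hA2, hfin⟩ := hsel h a3 (δ + d + 1) (by omega) (by
    push_cast
    have e1 : (δ : ℝ) + d + 1 ≤ Real.exp (4 * (c * EH)) := by
      have e2 : c * EH + 1 ≤ Real.exp (c * EH) := Real.add_one_le_exp _
      have e3 : Real.exp (4 * (c * EH)) = Real.exp (c * EH) * Real.exp (3 * (c * EH)) := by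
        rw [← Real.exp_add]; congr 1; ring
      have e4 : 3 * (c * EH) + 1 ≤ Real.exp (3 * (c * EH)) := Real.add_one_le_exp _
      rw [e3]
      have e5 : (2 : ℝ) ≤ Real.exp (3 * (c * EH)) := by linarith
      have e6 : Real.exp (c * EH) * 2 ≤ Real.exp (c * EH) * Real.exp (3 * (c * EH)) := by gcongr
      linarith
    exact e1.trans (Real.exp_le_exp.mpr hE4))
  -- avoid `F G`
  have hφF : MvPolynomial.map (algebraMap K Ω) F ≠ 0 := by
    intro h0
    exact hF (MvPolynomial.map_injective _ (algebraMap K Ω).injective (by rw [h0, map_zero]))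
  have hGF : G * MvPolynomial.map (algebraMap K Ω) F ≠ 0 := mul_ne_zero hG hφF
  obtain ⟨s, hsA, hs⟩ := avoid B hsurj (CharZero.infinite K) (G * MvPolynomial.map (algebraMap K Ω) F)
    hGF (D := δ + d) ((MvPolynomial.totalDegree_mul _ _).trans
      (Nat.add_le_add hGδ.totalDegree_le (hFd.map (algebraMap K Ω)).totalDegree_le)) A (by omega)
  -- divide by the greatest common divisor
  have hspos : ∀ j, 0 < s j := fun j => (hA1 (s j) (hsA j)).1
  obtain ⟨g, hg⟩ : ∃ g : ℕ, g = Finset.univ.gcd s := ⟨_, rfl⟩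
  have hgd : ∀ j, g ∣ s j := fun j => by rw [hg]; exact Finset.gcd_dvd (mem_univ j)
  have hg0 : 0 < g := Nat.pos_of_dvd_of_pos (hgd 0) (hspos 0)
  have hgR : (0 : ℝ) < g := by exact_mod_cast hg0
  set s' : Fin (n + 1) → ℕ := fun j => s j / g with hs'
  have hs1 : Finset.univ.gcd s' = 1 := by
    rw [hs', hg]
    exact Finset.gcd_div_eq_one (mem_univ 0) (hspos 0).ne'
  have hss : ∀ j, s j = g * s' j := fun j => (Nat.mul_div_cancel' (hgd j)).symm
  have hs0 : ∀ j, 0 < s' j := fun j => Nat.div_pos (Nat.le_of_dvd (hspos j) (hgd j)) hg0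
  obtain ⟨j0, hj0⟩ := Finite.exists_max s'
  obtain ⟨U, hU⟩ : ∃ U : ℝ, U = (s' j0 : ℝ) := ⟨_, rfl⟩
  have hU1 : 1 ≤ U := by rw [hU]; exact_mod_cast hs0 j0
  have hsU : ∀ j, (s' j : ℝ) ≤ U := fun j => by rw [hU]; exact_mod_cast hj0 j
  have hclose : ∀ j, |(s' j : ℝ) - s' 0| ≤ lam * U := by
    intro j
    have h1 := hA2 (s j) (hsA j) (s 0) (hsA 0)
    rw [hss j, hss 0] at h1
    push_cast at h1
    rw [← mul_sub, abs_mul, abs_of_pos hgR] at h1
    have h2 : max ((g : ℝ) * s' j) (g * s' 0) ≤ g * U := by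
      apply max_le <;> gcongr
      · exact hsU j
      · exact hsU 0
    have h3 : (g : ℝ) * |(s' j : ℝ) - s' 0| ≤ g * (lam * U) := by
      calc (g : ℝ) * |(s' j : ℝ) - s' 0| ≤ lam * max ((g : ℝ) * s' j) (g * s' 0) := h1
        _ ≤ lam * (g * U) := by gcongr
        _ = _ := by ring
    exact le_of_mul_le_mul_left h3 hgR
  set x : Fin (n + 1) → K := pnt B (fun i => (s' i : K)) with hx
  have hxs : pnt B (fun i => (s i : K)) = fun k => (g : K) * x k := by
    rw [hx, ← pnt_mul]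
    congr 1
    funext i
    rw [hss i]
    push_cast
    rfl
  have hgK : (g : K) ≠ 0 := by exact_mod_cast hg0.ne'
  rw [hxs, map_mul] at hs
  have hG' : MvPolynomial.eval (fun j => algebraMap K Ω (x j)) G ≠ 0 := by
    intro h0
    apply hs
    have h1 : MvPolynomial.eval (fun k => algebraMap K Ω ((g : K) * x k)) G =
        (algebraMap K Ω g) ^ δ * MvPolynomial.eval (fun j => algebraMap K Ω (x j)) G := by
      have h2 : (fun k => algebraMap K Ω ((g : K) * x k)) =
          fun k => algebraMap K Ω g * (fun j => algebraMap K Ω (x j)) k := by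
        funext k; rw [map_mul]
      rw [h2]
      exact hom_eval₂ (RingHom.id Ω) hGδ _ _
    rw [h1, h0, mul_zero, zero_mul]
  have hF' : MvPolynomial.eval x F ≠ 0 := by
    intro h0
    apply hs
    have h1 : MvPolynomial.eval (fun k => algebraMap K Ω ((g : K) * x k))
        (MvPolynomial.map (algebraMap K Ω) F) = 0 := by
      have h2 : MvPolynomial.eval (fun k => algebraMap K Ω ((g : K) * x k))
          (MvPolynomial.map (algebraMap K Ω) F) = algebraMap K Ω
            (MvPolynomial.eval (fun k => (g : K) * x k) F) := by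
        rw [MvPolynomial.eval_map]
        exact (MvPolynomial.eval₂_comp (algebraMap K Ω) (fun k => (g : K) * x k) F).symm
      rw [h2]
      have h3 : MvPolynomial.eval (fun k => (g : K) * x k) F = (g : K) ^ d * MvPolynomial.eval x F :=
        hom_eval₂ (RingHom.id K) hFd _ _
      rw [h3, h0, mul_zero, map_zero]
    rw [h1, mul_zero]
  have hsM : ∀ j p, p.Prime → p ∣ s' j → p ∣ M := by
    intro j p hp hd
    refine (hA1 (s j) (hsA j)).2.1 p hp ?_
    rw [hss j]
    exact Dvd.dvd.mul_left hd _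
  obtain ⟨r1, r2, r3⟩ := hC s' M U lam hs1 hs0 hM hsM hU1 hlam hsU ⟨j0, hU.symm⟩ hclose hF'
  have hlogU : Real.log U ≤ h := by
    refine le_trans ?_ (hA1 (s j0) (hsA j0)).2.2
    rw [hU]
    apply Real.log_le_log
    · exact_mod_cast hs0 j0
    · have : s' j0 ≤ s j0 := by
        rw [hss j0]
        exact Nat.le_mul_of_pos_left _ hg0
      exact_mod_cast this
  rw [← hw] at r2 r3
  have hCle := le_abs_self C
  refine ⟨x, hF', hG', ?_, r1, fun T hT => ?_⟩
  · refine r3.trans ?_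
    have e1 : w * Real.log U ≤ w * h := by gcongr
    have e2 : w * h = H / 2 := by rw [hh]; field_simp
    linarith
  · refine (r2 T hT).trans ?_
    have e1 : w * (Real.log M + l * Real.log lam) ≤ w * (-(c₁ * (h ^ θ / Real.log h))) := by gcongr
    have e2 : c₁ * (h ^ θ / Real.log h) ≤ w * (c₁ * (h ^ θ / Real.log h)) := by
      have : 0 ≤ c₁ * (h ^ θ / Real.log h) := by positivity
      exact le_mul_of_one_le_left this hw1
    linarith

end Pool.Agent.L5helper15.ST
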