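import Mathlib

set_option autoImplicit false

/-! # Smooth numbers which are close to each other -/

namespace Pool.Agent.L5helper15.ST

open Finset

/-- the numbers composed of the primes in `P` with exponents at most `E` -/
noncomputable def smooth (P : Finset ℕ) (E : ℕ) : Finset ℕ :=
  (univ : Finset (P → Fin (E + 1))).image (fun f => ∏ p : P, (p : ℕ) ^ (f p : ℕ))

theorem fact_smooth (P : Finset ℕ) (hP : ∀ p ∈ P, p.Prime) (E : ℕ) (f : P → Fin (E + 1)) (q : P) :
    (∏ p : P, (p : ℕ) ^ (f p : ℕ)).factorization q = f q := by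
  classical
  rw [Nat.factorization_prod (fun (p : P) _ => pow_ne_zero _ (hP p p.2).ne_zero),
    Finsupp.finset_sum_apply]
  have : ∀ p : P, ((p : ℕ) ^ (f p : ℕ)).factorization q = if p = q then (f q : ℕ) else 0 := by
    intro p
    rw [(hP p p.2).factorization_pow, Finsupp.single_apply]
    by_cases h : p = q
    · rw [if_pos h, if_pos (by rw [h]), h]
    · rw [if_neg h, if_neg (fun h' => h (Subtype.ext h'))]
  rw [Finset.sum_congr rfl (fun p _ => this p), Finset.sum_ite_eq' univ q, if_pos (mem_univ _)]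

theorem card_smooth (P : Finset ℕ) (hP : ∀ p ∈ P, p.Prime) (E : ℕ) :
    (smooth P E).card = (E + 1) ^ P.card := by
  classical
  unfold smooth
  rw [card_image_of_injective, card_univ, Fintype.card_fun, Fintype.card_fin, Fintype.card_coe]
  intro f g hfg
  funext q
  have h1 := fact_smooth P hP E f q
  have h2 := fact_smooth P hP E g q
  simp only at hfg
  rw [hfg] at h1
  exact Fin.ext (h1.symm.trans h2)

theorem mem_smooth (P : Finset ℕ) (hP : ∀ p ∈ P, p.Prime) (E : ℕ) {s : ℕ} (hs : s ∈ smooth P E) :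
    0 < s ∧ (∀ p, p.Prime → p ∣ s → p ∈ P) ∧ Real.log s ≤ E * ∑ p ∈ P, Real.log p := by
  classical
  unfold smooth at hs
  rw [mem_image] at hs
  obtain ⟨f, -, rfl⟩ := hs
  have hpos : ∀ p : P, 0 < (p : ℕ) ^ (f p : ℕ) := fun p => pow_pos (hP p p.2).pos _
  refine ⟨Finset.prod_pos fun p _ => hpos p, ?_, ?_⟩
  · intro q hq hd
    obtain ⟨p, -, hp⟩ := (hq.prime.dvd_finsetProd_iff _).mp hd
    have h1 := hq.dvd_of_dvd_pow hp
    rw [(Nat.prime_dvd_prime_iff_eq hq (hP p p.2)).mp h1]
    exact p.2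
  · push_cast
    rw [Real.log_prod (fun p _ => by
      have := hpos p
      exact_mod_cast this.ne')]
    rw [mul_sum, ← Finset.sum_coe_sort P (fun p => (E : ℝ) * Real.log p)]
    refine Finset.sum_le_sum fun p _ => ?_
    rw [Real.log_pow]
    have h1 : ((f p : ℕ) : ℝ) ≤ E := by exact_mod_cast Nat.lt_succ_iff.mp (f p).2
    have h2 : 0 ≤ Real.log (p : ℕ) := Real.log_natCast_nonneg _
    gcongr

/-- pigeonhole on the logarithms -/
theorem pigeon (A : Finset ℕ) (hA : ∀ s ∈ A, 0 < s) {h : ℝ} (hh : 0 < h) (hAh : ∀ s ∈ A, Real.log s ≤ h)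
    {T : ℕ} (hT : 1 ≤ T) (hTA : 2 * T ≤ A.card) : ∃ A' : Finset ℕ, A' ⊆ A ∧ T ≤ A'.card ∧
      ∀ s ∈ A', ∀ t ∈ A', |(s : ℝ) - t| ≤ (2 * h * T / A.card) * max (s : ℝ) t := by
  classical
  obtain ⟨lam, hlam⟩ : ∃ lam : ℝ, lam = 2 * h * T / A.card := ⟨_, rfl⟩
  rw [← hlam]
  have hN : (0 : ℝ) < A.card := by exact_mod_cast (by omega : 0 < A.card)
  have hT0 : (0 : ℝ) < T := by exact_mod_cast hT
  have hlam0 : 0 < lam := by rw [hlam]; positivity
  have hmaps : ∀ s ∈ A, ⌊Real.log s / lam⌋₊ ∈ range (⌊h / lam⌋₊ + 1) := by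
    intro s hs
    rw [mem_range, Nat.lt_succ_iff]
    apply Nat.floor_le_floor
    exact div_le_div_of_nonneg_right (hAh s hs) hlam0.le
  have hcard : (range (⌊h / lam⌋₊ + 1)).card * (T - 1) < A.card := by
    rw [card_range]
    have h1 : h / lam = A.card / (2 * T) := by
      rw [hlam]
      field_simp
    have h2 : ((⌊h / lam⌋₊ : ℕ) : ℝ) ≤ A.card / (2 * T) := by
      rw [← h1]
      exact Nat.floor_le (by positivity)
    have h3 : (((⌊h / lam⌋₊ + 1) * (T - 1) : ℕ) : ℝ) < A.card := by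
      push_cast [Nat.cast_sub hT]
      have h4 : ((⌊h / lam⌋₊ : ℝ) + 1) * ((T : ℝ) - 1) ≤ (A.card / (2 * T) + 1) * (T - 1) := by
        have : (0 : ℝ) ≤ (T : ℝ) - 1 := by
          have : (1 : ℝ) ≤ T := by exact_mod_cast hT
          linarith
        gcongr
      have h5 : ((A.card : ℝ) / (2 * T) + 1) * (T - 1) ≤ A.card / 2 + (T - 1) := by
        have h6 : (A.card : ℝ) / (2 * T) * (T - 1) ≤ A.card / (2 * T) * T := by
          have : (0 : ℝ) ≤ A.card / (2 * T) := by positivity
          gcongr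
          linarith
        have h7 : (A.card : ℝ) / (2 * T) * T = A.card / 2 := by field_simp
        linarith
      have h8 : (2 : ℝ) * T ≤ A.card := by exact_mod_cast hTA
      linarith
    exact_mod_cast h3
  obtain ⟨j, -, hj⟩ := exists_lt_card_fiber_of_mul_lt_card_of_maps_to hmaps hcard
  refine ⟨A.filter (fun s : ℕ => ⌊Real.log s / lam⌋₊ = j), filter_subset _ _, by omega, ?_⟩
  have key : ∀ s t : ℕ, 0 < s → 0 < t → t ≤ s → Real.log s - Real.log t ≤ lam →
      |(s : ℝ) - t| ≤ lam * max (s : ℝ) t := by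
    intro s t hs ht hts h1
    have hs' : (0 : ℝ) < s := by exact_mod_cast hs
    have ht' : (0 : ℝ) < t := by exact_mod_cast ht
    have hts' : (t : ℝ) ≤ s := by exact_mod_cast hts
    rw [abs_of_nonneg (by linarith), max_eq_left hts']
    have h2 : Real.log (t / s) ≤ t / s - 1 := Real.log_le_sub_one_of_pos (by positivity)
    rw [Real.log_div ht'.ne' hs'.ne'] at h2
    have h3 := Real.add_one_le_exp (Real.log t - Real.log s)
    rw [Real.exp_sub, Real.exp_log ht', Real.exp_log hs', le_div_iff₀ hs'] at h3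
    have h4 : (Real.log s - Real.log t) * s ≤ lam * s := by gcongr
    linarith
  intro s hs t ht
  rw [mem_filter] at hs ht
  have hs0 := hA s hs.1
  have ht0 := hA t ht.1
  have hls : 0 ≤ Real.log s / lam := div_nonneg (Real.log_natCast_nonneg s) hlam0.le
  have hlt : 0 ≤ Real.log t / lam := div_nonneg (Real.log_natCast_nonneg t) hlam0.le
  have a1 := Nat.floor_le hls
  have a2 := Nat.lt_floor_add_one (Real.log s / lam)
  have a3 := Nat.floor_le hlt
  have a4 := Nat.lt_floor_add_one (Real.log t / lam)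
  rw [hs.2] at a1 a2
  rw [ht.2] at a3 a4
  rcases le_total t s with h1 | h1
  · apply key s t hs0 ht0 h1
    have : Real.log s / lam - Real.log t / lam ≤ 1 := by linarith
    rw [← sub_div, div_le_one hlam0] at this
    exact this
  · rw [abs_sub_comm, max_comm]
    apply key t s ht0 hs0 h1
    have : Real.log t / lam - Real.log s / lam ≤ 1 := by linarith
    rw [← sub_div, div_le_one hlam0] at this
    exact this

end Pool.Agent.L5helper15.ST
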