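import Pool.Agent.W231.H.Main

set_option autoImplicit false

/-! # Values of forms at tuples of natural numbers which are close to each other -/

namespace Pool.Agent.L5helper15.ST

open NumberField IsDedekindDomain Height Finset
open Pool.Agent.W231.V (ell fv fv_na fv_nat logHeight_le_of)

/-- Bezout -/
theorem bezout {ι : Type*} [DecidableEq ι] (s : Finset ι) (f : ι → ℕ) :
    ∃ a : ι → ℤ, ∑ i ∈ s, a i * (f i : ℤ) = ((s.gcd f : ℕ) : ℤ) := by
  induction s using Finset.induction_on with
  | empty => exact ⟨fun _ => 0, by simp⟩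
  | insert i s hi ih =>
    obtain ⟨a, ha⟩ := ih
    refine ⟨fun j => if j = i then Nat.gcdA (f i) (s.gcd f) else Nat.gcdB (f i) (s.gcd f) * a j, ?_⟩
    rw [Finset.sum_insert hi, Finset.gcd_insert]
    simp only [if_true]
    have h1 : ∑ j ∈ s, (if j = i then Nat.gcdA (f i) (s.gcd f) else Nat.gcdB (f i) (s.gcd f) * a j) *
        (f j : ℤ) = Nat.gcdB (f i) (s.gcd f) * ∑ j ∈ s, a j * (f j : ℤ) := by
      rw [Finset.mul_sum]
      refine Finset.sum_congr rfl fun j hj => ?_
      have hji : j ≠ i := by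
        rintro rfl
        exact hi hj
      rw [if_neg hji]
      ring
    rw [h1, ha]
    have h2 := Nat.gcd_eq_gcd_ab (f i) (s.gcd f)
    change _ = ((Nat.gcd (f i) (s.gcd f) : ℕ) : ℤ)
    rw [h2]
    ring

variable {K : Type*} [Field K] [NumberField K]

theorem fv_int (v : HeightOneSpectrum (𝓞 K)) {x : K} (hx : IsIntegral ℤ x) : fv v x ≤ 1 := by
  have h := FinitePlace.norm_le_one (K := K) v ⟨x, hx⟩
  exact h

theorem fv_sum_le' {ι : Type*} (v : HeightOneSpectrum (𝓞 K)) (s : Finset ι) (f : ι → K) {B : ℝ} (hB : 0 ≤ B)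
    (h : ∀ i ∈ s, fv v (f i) ≤ B) : fv v (∑ i ∈ s, f i) ≤ B := by
  classical
  induction s using Finset.induction_on with
  | empty => simpa using hB
  | insert i s hi ih =>
    rw [Finset.sum_insert hi]
    exact (fv_na v _ _).trans (max_le (h i (mem_insert_self _ _))
      (ih fun j hj => h j (mem_insert_of_mem hj)))

/-- the height of a coprime tuple of natural numbers -/
theorem height_nat {n : ℕ} (s : Fin (n + 1) → ℕ) (hs : Finset.univ.gcd s = 1) (hs0 : ∀ j, 0 < s j)
    (j : Fin (n + 1)) : (totalWeight K : ℝ) * Real.log (s j) ≤ logHeight (fun i => (s i : K)) := by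
  have hx : (fun i => (s i : K)) ≠ 0 := by
    intro h
    have := congrFun h 0
    simp only [Pi.zero_apply, Nat.cast_eq_zero] at this
    exact (hs0 0).ne' this
  rw [logHeight_eq_log_mulHeight, ← Real.log_pow]
  have hj0 : (0 : ℝ) < s j := by exact_mod_cast hs0 j
  apply Real.log_le_log (by positivity)
  rw [NumberField.mulHeight_eq hx]
  have h1 : (s j : ℝ) ^ totalWeight K ≤ ∏ v : InfinitePlace K, (⨆ i, v ((s i : K))) ^ v.mult := by
    rw [totalWeight_eq_sum_mult, ← Finset.prod_pow_eq_pow_sum]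
    refine Finset.prod_le_prod (fun w _ => by positivity) fun w _ => ?_
    apply pow_le_pow_left₀ hj0.le
    have h2 : w (s j : K) = s j := by simp
    rw [← h2]
    exact Finite.le_ciSup_of_le j le_rfl
  have h2 : ∏ᶠ v : FinitePlace K, ⨆ i, v ((s i : K)) = 1 := by
    refine finprod_eq_one_of_forall_eq_one fun v => ?_
    apply le_antisymm
    · refine ciSup_le fun i => ?_
      have := fv_nat (K := K) v.maximalIdeal (s i)
      rwa [Pool.Agent.W231.V.fv_apply, FinitePlace.mk_maximalIdeal] at this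
    · obtain ⟨a, ha⟩ := bezout (Finset.univ : Finset (Fin (n + 1))) s
      rw [hs] at ha
      have h3 : (∑ i, ((a i : ℤ) : K) * (s i : K)) = 1 := by exact_mod_cast congrArg (Int.cast (R := K)) ha
      have h4 : fv v.maximalIdeal (∑ i, ((a i : ℤ) : K) * (s i : K)) ≤ ⨆ i, v ((s i : K)) := by
        refine fv_sum_le' v.maximalIdeal _ _ (Real.iSup_nonneg fun i => apply_nonneg v _) fun i _ => ?_
        rw [map_mul]
        have h5 : fv v.maximalIdeal ((a i : ℤ) : K) ≤ 1 := fv_int _ isIntegral_algebraMap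
        have h6 : fv v.maximalIdeal (s i : K) ≤ ⨆ i, v ((s i : K)) := by
          have h7 : fv v.maximalIdeal (s i : K) = v (s i : K) := by
            rw [Pool.Agent.W231.V.fv_apply, FinitePlace.mk_maximalIdeal]
          rw [h7]
          exact Finite.le_ciSup_of_le i le_rfl
        calc _ ≤ 1 * fv v.maximalIdeal (s i : K) := by
              have := (fv v.maximalIdeal).nonneg (s i : K)
              gcongr
          _ ≤ _ := by rw [one_mul]; exact h6
      rw [h3, map_one] at h4
      exact h4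
  rw [h2, mul_one]
  exact h1

theorem pow_close {a b lam U : ℝ} (m : ℕ) (ha : 0 ≤ a) (hb : 0 ≤ b) (haU : a ≤ U) (hbU : b ≤ U)
    (h : |a - b| ≤ lam * U) : |a ^ m - b ^ m| ≤ m * lam * U ^ m := by
  rcases Nat.eq_zero_or_pos m with rfl | hm
  · simp
  · refine (abs_pow_sub_pow_le a b m).trans ?_
    have hU : 0 ≤ U := ha.trans haU
    rw [abs_of_nonneg ha, abs_of_nonneg hb]
    calc |a - b| * m * max a b ^ (m - 1) ≤ (lam * U) * m * U ^ (m - 1) := by
          have h0 : 0 ≤ lam * U := (abs_nonneg _).trans h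
          have h1 : max a b ≤ U := max_le haU hbU
          have h2 : 0 ≤ max a b := le_max_of_le_left ha
          gcongr
      _ = m * lam * (U ^ (m - 1) * U) := by ring
      _ = _ := by rw [← pow_succ, Nat.sub_add_cancel hm]

theorem prod_close {ι : Type*} [DecidableEq ι] (T : Finset ι) (a : ι → ℝ) (m : ι → ℕ) {b lam U : ℝ}
    (ha : ∀ i, 0 ≤ a i) (hb : 0 ≤ b) (haU : ∀ i, a i ≤ U) (hbU : b ≤ U) (hlam : 0 ≤ lam)
    (h : ∀ i, |a i - b| ≤ lam * U) :
    |∏ i ∈ T, a i ^ m i - b ^ (∑ i ∈ T, m i)| ≤ (∑ i ∈ T, m i : ℕ) * lam * U ^ (∑ i ∈ T, m i) := by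
  have hU : 0 ≤ U := hb.trans hbU
  induction T using Finset.induction_on with
  | empty => simp
  | insert i T hi ih =>
    rw [Finset.prod_insert hi, Finset.sum_insert hi, pow_add]
    have h1 := pow_close (m i) (ha i) hb (haU i) hbU (h i)
    have h2 : |a i ^ m i| ≤ U ^ m i := by
      rw [abs_of_nonneg (pow_nonneg (ha i) _)]
      exact pow_le_pow_left₀ (ha i) (haU i) _
    have h3 : |b ^ (∑ j ∈ T, m j)| ≤ U ^ (∑ j ∈ T, m j) := by
      rw [abs_of_nonneg (pow_nonneg hb _)]
      exact pow_le_pow_left₀ hb hbU _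
    have h4 : a i ^ m i * ∏ j ∈ T, a j ^ m j - b ^ m i * b ^ (∑ j ∈ T, m j) =
        a i ^ m i * (∏ j ∈ T, a j ^ m j - b ^ (∑ j ∈ T, m j)) +
          (a i ^ m i - b ^ m i) * b ^ (∑ j ∈ T, m j) := by ring
    rw [h4]
    refine (abs_add_le _ _).trans ?_
    rw [abs_mul, abs_mul]
    calc |a i ^ m i| * |∏ j ∈ T, a j ^ m j - b ^ (∑ j ∈ T, m j)| +
          |a i ^ m i - b ^ m i| * |b ^ (∑ j ∈ T, m j)|
        ≤ U ^ m i * ((∑ j ∈ T, m j : ℕ) * lam * U ^ (∑ j ∈ T, m j)) +
          (m i * lam * U ^ m i) * U ^ (∑ j ∈ T, m j) := by gcongr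
      _ = _ := by push_cast; rw [pow_add]; ring

/-- clearing denominators -/
theorem scale {σ : Type*} (Q : MvPolynomial σ K) : ∃ N : K, N ≠ 0 ∧ ∀ m, IsIntegral ℤ (N * Q.coeff m) := by
  classical
  obtain ⟨b, hb⟩ := IsLocalization.exist_integer_multiples_of_finset (nonZeroDivisors (𝓞 K))
    (Q.support.image Q.coeff)
  refine ⟨algebraMap (𝓞 K) K b, ?_, fun m => ?_⟩
  · intro h
    exact nonZeroDivisors.coe_ne_zero b ((map_eq_zero_iff _ (IsFractionRing.injective (𝓞 K) K)).mp h)
  · by_cases hm : m ∈ Q.support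
    · obtain ⟨a, ha⟩ := hb (Q.coeff m) (mem_image_of_mem _ hm)
      have h1 : algebraMap (𝓞 K) K b * Q.coeff m = algebraMap (𝓞 K) K a := by
        rw [ha, Algebra.smul_def]
      rw [h1]
      exact a.2
    · rw [MvPolynomial.notMem_support_iff.mp hm, mul_zero]
      exact isIntegral_zero

theorem integral_eval {n : ℕ} (Q : MvPolynomial (Fin (n + 1)) K) (hQ : ∀ m, IsIntegral ℤ (Q.coeff m))
    (s : Fin (n + 1) → ℕ) : IsIntegral ℤ (MvPolynomial.eval (fun i => (s i : K)) Q) := by
  rw [MvPolynomial.eval_eq']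
  refine IsIntegral.sum _ fun m _ => (hQ m).mul (IsIntegral.prod _ fun i _ => IsIntegral.pow ?_ _)
  exact_mod_cast isIntegral_algebraMap (R := ℤ) (A := K) (x := (s i : ℤ))

/-- the trivial bound -/
theorem height_value {n : ℕ} (Q : MvPolynomial (Fin (n + 1)) K) (hQ : ∀ m, IsIntegral ℤ (Q.coeff m)) :
    ∃ C : ℝ, ∀ (s : Fin (n + 1) → ℕ) (U : ℝ), 1 ≤ U → (∀ j, (s j : ℝ) ≤ U) →
      logHeight₁ (MvPolynomial.eval (fun i => (s i : K)) Q) ≤
        (totalWeight K : ℝ) * (Q.totalDegree * Real.log U) + C := by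
  obtain ⟨B, hB⟩ : ∃ B : ℝ, B = 1 + ∑ w : InfinitePlace K, ∑ m ∈ Q.support, w (Q.coeff m) := ⟨_, rfl⟩
  have hB1 : ∀ w : InfinitePlace K, ∑ m ∈ Q.support, w (Q.coeff m) ≤ B := by
    intro w
    rw [hB]
    have := Finset.single_le_sum (f := fun w : InfinitePlace K => ∑ m ∈ Q.support, w (Q.coeff m))
      (fun w _ => Finset.sum_nonneg fun m _ => apply_nonneg w _) (mem_univ w)
    linarith
  have hB0 : 1 ≤ B := by
    rw [hB]
    have : 0 ≤ ∑ w : InfinitePlace K, ∑ m ∈ Q.support, w (Q.coeff m) :=
      Finset.sum_nonneg fun w _ => Finset.sum_nonneg fun m _ => apply_nonneg w _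
    linarith
  refine ⟨(totalWeight K : ℝ) * Real.log B, fun s U hU hs => ?_⟩
  have hU0 : 0 < U := by linarith
  rw [logHeight₁_eq_logHeight]
  have h1 := logHeight_le_of (K := K) (x := ![MvPolynomial.eval (fun i => (s i : K)) Q, 1])
    (M := B * U ^ Q.totalDegree) (by
      intro h
      have := congrFun h 1
      simp at this) (by positivity) (by
      intro w i
      fin_cases i
      · change w (MvPolynomial.eval (fun i => (s i : K)) Q) ≤ _
        rw [MvPolynomial.eval_eq']
        calc w (∑ m ∈ Q.support, Q.coeff m * ∏ i, (s i : K) ^ m i)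
            ≤ ∑ m ∈ Q.support, w (Q.coeff m * ∏ i, (s i : K) ^ m i) := by
              exact w.1.sum_le _ _
          _ ≤ ∑ m ∈ Q.support, w (Q.coeff m) * U ^ Q.totalDegree := by
              refine Finset.sum_le_sum fun m hm => ?_
              rw [map_mul, map_prod]
              have h2 : ∏ i, w ((s i : K) ^ m i) ≤ U ^ Q.totalDegree := by
                calc ∏ i, w ((s i : K) ^ m i) ≤ ∏ i, U ^ m i := by
                      refine Finset.prod_le_prod (fun i _ => apply_nonneg w _) fun i _ => ?_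
                      rw [map_pow]
                      have h3 : w (s i : K) = s i := by simp
                      rw [h3]
                      exact pow_le_pow_left₀ (Nat.cast_nonneg _) (hs i) _
                  _ = U ^ (∑ i, m i) := Finset.prod_pow_eq_pow_sum _ _ _
                  _ ≤ _ := by
                      apply pow_le_pow_right₀ hU
                      have := MvPolynomial.le_totalDegree hm
                      rwa [Finsupp.sum_fintype _ _ (fun _ => rfl)] at this
              have := apply_nonneg w (Q.coeff m)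
              gcongr
          _ = (∑ m ∈ Q.support, w (Q.coeff m)) * U ^ Q.totalDegree := by rw [Finset.sum_mul]
          _ ≤ _ := by
              have := hB1 w
              gcongr
      · change w 1 ≤ _
        rw [map_one]
        exact one_le_mul_of_one_le_of_one_le hB0 (one_le_pow₀ hU)) (by
      intro v i
      fin_cases i
      · exact fv_int v (integral_eval Q hQ s)
      · change fv v 1 ≤ 1
        rw [map_one])
  refine h1.trans (le_of_eq ?_)
  rw [Real.log_mul (by positivity) (by positivity), Real.log_pow]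
  ring

/-- the bound near a zero -/
theorem height_small {n : ℕ} (Q : MvPolynomial (Fin (n + 1)) K) {e : ℕ} (hQe : Q.IsHomogeneous e)
    (hQ : ∀ m, IsIntegral ℤ (Q.coeff m)) (hQ1 : MvPolynomial.eval (fun _ => (1 : K)) Q = 0) :
    ∃ C : ℝ, ∀ (s : Fin (n + 1) → ℕ) (U lam : ℝ), 1 ≤ U → 0 < lam → (∀ j, (s j : ℝ) ≤ U) →
      (∀ j, |(s j : ℝ) - s 0| ≤ lam * U) → MvPolynomial.eval (fun i => (s i : K)) Q ≠ 0 →
      logHeight₁ (MvPolynomial.eval (fun i => (s i : K)) Q) ≤
        (totalWeight K : ℝ) * (Real.log lam + e * Real.log U) + C := by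
  classical
  obtain ⟨B, hB⟩ : ∃ B : ℝ, B = 1 + ∑ w : InfinitePlace K, ∑ m ∈ Q.support, w (Q.coeff m) * e := ⟨_, rfl⟩
  have hB1 : ∀ w : InfinitePlace K, ∑ m ∈ Q.support, w (Q.coeff m) * e ≤ B := by
    intro w
    rw [hB]
    have := Finset.single_le_sum (f := fun w : InfinitePlace K => ∑ m ∈ Q.support, w (Q.coeff m) * e)
      (fun w _ => Finset.sum_nonneg fun m _ => mul_nonneg (apply_nonneg w _) (Nat.cast_nonneg _))
      (mem_univ w)
    linarith
  have hB0 : 1 ≤ B := by
    rw [hB]
    have : 0 ≤ ∑ w : InfinitePlace K, ∑ m ∈ Q.support, w (Q.coeff m) * (e : ℝ) :=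
      Finset.sum_nonneg fun w _ => Finset.sum_nonneg fun m _ => mul_nonneg (apply_nonneg w _) (Nat.cast_nonneg _)
    linarith
  refine ⟨(totalWeight K : ℝ) * Real.log B, fun s U lam hU hlam hs hsc hne => ?_⟩
  have hU0 : 0 < U := by linarith
  have hval : ∀ w : InfinitePlace K, w (MvPolynomial.eval (fun i => (s i : K)) Q) ≤ B * (lam * U ^ e) := by
    intro w
    have h1 : MvPolynomial.eval (fun i => (s i : K)) Q =
        ∑ m ∈ Q.support, Q.coeff m * ((∏ i, (s i : K) ^ m i) - (s 0 : K) ^ e) := by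
      rw [MvPolynomial.eval_eq'] at hQ1 ⊢
      have h2 : ∑ m ∈ Q.support, Q.coeff m = 0 := by
        rw [← hQ1]
        refine Finset.sum_congr rfl fun m _ => ?_
        simp
      have h3 : ∑ m ∈ Q.support, Q.coeff m * ((∏ i, (s i : K) ^ m i) - (s 0 : K) ^ e) =
          ∑ m ∈ Q.support, Q.coeff m * (∏ i, (s i : K) ^ m i) - (∑ m ∈ Q.support, Q.coeff m) * (s 0 : K) ^ e := by
        rw [Finset.sum_mul, ← Finset.sum_sub_distrib]
        refine Finset.sum_congr rfl fun m _ => ?_
        ring
      rw [h3, h2, zero_mul, sub_zero]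
    rw [h1]
    calc w (∑ m ∈ Q.support, Q.coeff m * ((∏ i, (s i : K) ^ m i) - (s 0 : K) ^ e))
        ≤ ∑ m ∈ Q.support, w (Q.coeff m * ((∏ i, (s i : K) ^ m i) - (s 0 : K) ^ e)) := w.1.sum_le _ _
      _ ≤ ∑ m ∈ Q.support, (w (Q.coeff m) * e) * (lam * U ^ e) := by
          refine Finset.sum_le_sum fun m hm => ?_
          rw [map_mul]
          have hme : ∑ i, m i = e := by
            have := hQe (MvPolynomial.mem_support_iff.mp hm)
            rw [← this, Finsupp.weight_apply, Finsupp.sum_fintype _ _ (fun _ => by simp)]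
            simp
          have h4 : w ((∏ i, (s i : K) ^ m i) - (s 0 : K) ^ e) ≤ e * lam * U ^ e := by
            have h5 : ((∏ i, (s i : K) ^ m i) - (s 0 : K) ^ e) =
                ((((∏ i, (s i : ℤ) ^ m i) - (s 0 : ℤ) ^ e : ℤ)) : K) := by push_cast; rfl
            have h6 : w (((((∏ i, (s i : ℤ) ^ m i) - (s 0 : ℤ) ^ e : ℤ)) : K)) =
                |(∏ i, (s i : ℝ) ^ m i) - (s 0 : ℝ) ^ e| := by
              rw [← InfinitePlace.norm_embedding_eq, map_intCast, Complex.norm_intCast]
              push_cast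
              rfl
            rw [h5, h6]
            have h7 := prod_close univ (fun i => (s i : ℝ)) m (b := (s 0 : ℝ)) (lam := lam) (U := U)
              (fun i => Nat.cast_nonneg _) (Nat.cast_nonneg _) hs (hs 0) hlam.le hsc
            rwa [hme] at h7
          have := apply_nonneg w (Q.coeff m)
          calc w (Q.coeff m) * w ((∏ i, (s i : K) ^ m i) - (s 0 : K) ^ e)
              ≤ w (Q.coeff m) * (e * lam * U ^ e) := by gcongr
            _ = _ := by ring
      _ = (∑ m ∈ Q.support, w (Q.coeff m) * e) * (lam * U ^ e) := by rw [Finset.sum_mul]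
      _ ≤ _ := by
          have := hB1 w
          gcongr
  have hint := integral_eval Q hQ s
  have hone : 1 ≤ B * (lam * U ^ e) := by
    by_contra hcon
    push Not at hcon
    obtain ⟨w⟩ : Nonempty (InfinitePlace K) := inferInstance
    have h1 := InfinitePlace.one_le_of_lt_one (K := K) (w := w)
      (a := (⟨MvPolynomial.eval (fun i => (s i : K)) Q, hint⟩ : 𝓞 K)) (by
        intro h
        apply hne
        exact congrArg (fun a : 𝓞 K => (a : K)) h) (fun z _ => (hval z).trans_lt hcon)
    exact absurd (h1.trans (hval w)) (not_le.mpr hcon)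
  rw [logHeight₁_eq_logHeight]
  have h1 := logHeight_le_of (K := K) (x := ![MvPolynomial.eval (fun i => (s i : K)) Q, 1])
    (M := B * (lam * U ^ e)) (by
      intro h
      have := congrFun h 1
      simp at this) (by positivity) (by
      intro w i
      fin_cases i
      · exact hval w
      · change w 1 ≤ _
        rw [map_one]
        exact hone) (by
      intro v i
      fin_cases i
      · exact fv_int v hint
      · change fv v 1 ≤ 1
        rw [map_one])
  refine h1.trans (le_of_eq ?_)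
  rw [Real.log_mul (by positivity) (by positivity), Real.log_mul (by positivity) (by positivity),
    Real.log_pow]
  ring

end Pool.Agent.L5helper15.ST
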