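import Pool.Agent.L5helper15.ST.WSub

set_option autoImplicit false

/-! # The truncated counting function at the points `(z_j s_j ^ w_j)` -/

namespace Pool.Agent.L5helper15.ST

open NumberField IsDedekindDomain Height Finset
open Pool.Agent.W231.V (ell fv fv_na fv_nat logHeight_le_of fv_support_finite sum_union_le logHeight₁_nat)
open Pool.Agent.W231.G (exists_bad fv_mv_le)

variable {K : Type*} [Field K] [NumberField K]

/-- height comparison for diagonal maps -/
theorem diag_le {n : ℕ} (a : Fin (n + 1) → K) : ∃ C : ℝ, ∀ y : Fin (n + 1) → K,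
    logHeight (fun j => a j * y j) ≤ logHeight y + C := by
  classical
  refine ⟨totalWeight K * Real.log (Nat.card (Fin (n + 1))) +
    logHeight (fun p : Fin (n + 1) × Fin (n + 1) => if p.1 = p.2 then a p.1 else 0), fun y => ?_⟩
  have h2 := logHeight_linearMap_apply_le
    (fun p : Fin (n + 1) × Fin (n + 1) => if p.1 = p.2 then a p.1 else 0) y
  have h3 : (fun j => ∑ i, (fun p : Fin (n + 1) × Fin (n + 1) => if p.1 = p.2 then a p.1 else 0) (j, i) * y i) =
      fun j => a j * y j := by
    funext j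
    simp
  rw [h3] at h2
  linarith

/-- the main estimate -/
theorem wcore {n l d : ℕ} (w : Fin (n + 1) → ℕ) (hw : ∀ j, 0 < w j) (F : MvPolynomial (Fin (n + 1)) K)
    (hF : F ≠ 0) (hFd : F.IsWeightedHomogeneous w d) (P : Fin l → MvPolynomial (Fin (n + 1)) K)
    (e : Fin l → ℕ) (hP : ∀ i, (P i).IsWeightedHomogeneous w (e i))
    (hdiv : (∏ j, MvPolynomial.X j) * (∏ i, P i) ∣ F)
    (z : Fin (n + 1) → K) (hz : ∀ i, MvPolynomial.eval z (P i) = 0) (hz0 : ∀ j, z j ≠ 0) :
    ∃ C : ℝ, ∀ (s : Fin (n + 1) → ℕ) (M : ℕ) (U lam : ℝ), Finset.univ.gcd s = 1 → (∀ j, 0 < s j) →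
      0 < M → (∀ j p, p.Prime → p ∣ s j → p ∣ M) → 1 ≤ U → 0 < lam → (∀ j, (s j : ℝ) ≤ U) →
      (∃ j, (s j : ℝ) = U) → (∀ j, |(s j : ℝ) - s 0| ≤ lam * U) →
      MvPolynomial.eval (wpnt w z (fun i => (s i : K))) F ≠ 0 →
      {v : HeightOneSpectrum (𝓞 K) | WBad v F d w (wpnt w z (fun i => (s i : K)))}.Finite ∧
      (∀ T : Finset (HeightOneSpectrum (𝓞 K)), (∀ v ∈ T, WBad v F d w (wpnt w z (fun i => (s i : K)))) →
        ∑ v ∈ T, ell v ≤ (totalWeight K : ℝ) * (Real.log M + l * Real.log lam) +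
          ((d : ℝ) - ∑ j, (w j : ℝ)) * wheight w (wpnt w z (fun i => (s i : K))) + C) ∧
      wheight w (wpnt w z (fun i => (s i : K))) ≤ (totalWeight K : ℝ) * Real.log U + C := by
  classical
  have hinf : Infinite K := CharZero.infinite K
  obtain ⟨E, hE⟩ := hdiv
  obtain ⟨F', hF'⟩ : ∃ F', F' = MvPolynomial.aeval (wsub w z) F := ⟨_, rfl⟩
  obtain ⟨E', hE'⟩ : ∃ E', E' = MvPolynomial.aeval (wsub w z) E := ⟨_, rfl⟩
  obtain ⟨P', hP'⟩ : ∃ P' : Fin l → MvPolynomial (Fin (n + 1)) K,
    P' = fun i => MvPolynomial.aeval (wsub w z) (P i) := ⟨_, rfl⟩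
  have hF'0 : F' ≠ 0 := by rw [hF']; exact wsub_ne hw hz0 hF
  have hF'h : F'.IsHomogeneous d := by rw [hF']; exact wsub_hom w z hFd
  have hP'h : ∀ i, (P' i).IsHomogeneous (e i) := by
    intro i
    rw [hP']
    exact wsub_hom w z (hP i)
  have hFE : F' = (∏ j, wsub w z j) * (∏ i, P' i) * E' := by
    rw [hF', hE, map_mul, map_mul, map_prod, map_prod, hE', hP']
    simp only [MvPolynomial.aeval_X]
  have hLP0 : (∏ j, wsub w z j) * (∏ i, P' i) ≠ 0 := by
    intro h
    exact hF'0 (by rw [hFE, h, zero_mul])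
  have hE0 : E' ≠ 0 := by
    intro h
    exact hF'0 (by rw [hFE, h, mul_zero])
  have hprodh : ((∏ j, wsub w z j) * (∏ i, P' i)).IsHomogeneous ((∑ j, w j) + ∑ i, e i) :=
    (MvPolynomial.IsHomogeneous.prod _ _ _ fun j _ => wsub_hom1 w z j).mul
      (MvPolynomial.IsHomogeneous.prod _ _ _ fun i _ => hP'h i)
  have hdeg : d = (∑ j, w j) + ∑ i, e i + E'.totalDegree := by
    have h1 := MvPolynomial.totalDegree_mul_of_isDomain hLP0 hE0
    rw [← hFE, hF'h.totalDegree hF'0, hprodh.totalDegree hLP0] at h1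
    exact h1
  -- the factors in the parameters
  choose N hN0 hNi using fun i => scale (P' i)
  obtain ⟨NE, hNE0, hNEi⟩ := scale E'
  set Q : Fin l → MvPolynomial (Fin (n + 1)) K := fun i => MvPolynomial.C (N i) * P' i with hQ
  set QE : MvPolynomial (Fin (n + 1)) K := MvPolynomial.C NE * E' with hQE
  have hQint : ∀ i m, IsIntegral ℤ ((Q i).coeff m) := by
    intro i m
    rw [hQ]
    simp only
    rw [MvPolynomial.coeff_C_mul]
    exact hNi i m
  have hQEint : ∀ m, IsIntegral ℤ (QE.coeff m) := by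
    intro m
    rw [hQE, MvPolynomial.coeff_C_mul]
    exact hNEi m
  have hQh : ∀ i, (Q i).IsHomogeneous (e i) := by
    intro i
    have h2 := (MvPolynomial.isHomogeneous_C (Fin (n + 1)) (N i)).mul (hP'h i)
    rwa [zero_add] at h2
  have hQev : ∀ i (s : Fin (n + 1) → K), MvPolynomial.eval s (Q i) =
      N i * MvPolynomial.eval (wpnt w z s) (P i) := by
    intro i s
    rw [hQ]
    simp only
    rw [map_mul, MvPolynomial.eval_C, hP', eval_wsub]
  have hQEev : ∀ (s : Fin (n + 1) → K), MvPolynomial.eval s QE =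
      NE * MvPolynomial.eval (wpnt w z s) E := by
    intro s
    rw [hQE, map_mul, MvPolynomial.eval_C, hE', eval_wsub]
  have hone : wpnt w z (fun _ => (1 : K)) = z := by
    funext k
    unfold wpnt
    rw [one_pow, mul_one]
  have hQ1 : ∀ i, MvPolynomial.eval (fun _ => (1 : K)) (Q i) = 0 := by
    intro i
    rw [hQev, hone, hz i, mul_zero]
  have hQEdeg : QE.totalDegree ≤ E'.totalDegree := by
    rw [hQE]
    refine (MvPolynomial.totalDegree_mul _ _).trans ?_
    rw [MvPolynomial.totalDegree_C, zero_add]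
  choose C1 hC1 using fun i => height_small (Q i) (hQh i) (hQint i) (hQ1 i)
  obtain ⟨C2, hC2⟩ := height_value QE hQEint
  -- the bad primes
  set cs : Finset K := F.support.image F.coeff ∪ univ.image N ∪ {NE} ∪ univ.image z with hcs
  obtain ⟨T0, hT0⟩ := exists_bad cs
  have hcF : ∀ v ∉ T0, ∀ m, fv v (F.coeff m) ≤ 1 := by
    intro v hv m
    by_cases h : F.coeff m = 0
    · rw [h, map_zero]; exact zero_le_one
    · refine (hT0 v hv _ ?_).2
      have : F.coeff m ∈ F.support.image F.coeff :=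
        Finset.mem_image.2 ⟨m, MvPolynomial.mem_support_iff.2 h, rfl⟩
      simp only [hcs, Finset.mem_union]; tauto
  have hcN : ∀ v ∉ T0, ∀ i, fv v (N i) = 1 := by
    intro v hv i
    refine (hT0 v hv _ ?_).1 (hN0 i)
    have : N i ∈ univ.image N := Finset.mem_image.2 ⟨i, mem_univ _, rfl⟩
    simp only [hcs, Finset.mem_union]; tauto
  have hcNE : ∀ v ∉ T0, fv v NE = 1 := by
    intro v hv
    refine (hT0 v hv _ ?_).1 hNE0
    simp only [hcs, Finset.mem_union, Finset.mem_singleton]; tauto
  have hcz : ∀ v ∉ T0, ∀ j, fv v (z j) = 1 := by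
    intro v hv j
    refine (hT0 v hv _ ?_).1 (hz0 j)
    have : z j ∈ univ.image z := Finset.mem_image.2 ⟨j, mem_univ _, rfl⟩
    simp only [hcs, Finset.mem_union]; tauto
  -- heights
  obtain ⟨W, hW⟩ : ∃ W : ℕ, W = ∏ i, w i := ⟨_, rfl⟩
  have hW0 : 0 < W := by rw [hW]; exact Finset.prod_pos fun i _ => hw i
  have hWR : (0 : ℝ) < W := by exact_mod_cast hW0
  have hWj : ∀ j, w j * ∏ i ∈ univ.erase j, w i = W := by
    intro j
    rw [hW]
    exact Finset.mul_prod_erase univ w (mem_univ j)
  obtain ⟨ζ, hζ⟩ : ∃ ζ : Fin (n + 1) → K, ζ = fun j => z j ^ (∏ i ∈ univ.erase j, w i) := ⟨_, rfl⟩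
  have hζ0 : ∀ j, ζ j ≠ 0 := by
    intro j
    rw [hζ]
    exact pow_ne_zero _ (hz0 j)
  obtain ⟨CA, hCA⟩ := diag_le (fun j => (ζ j)⁻¹)
  obtain ⟨CB, hCB⟩ := diag_le ζ
  have hw0 : (0 : ℝ) ≤ totalWeight K := Nat.cast_nonneg _
  obtain ⟨C, hC⟩ : ∃ C : ℝ, C = |∑ v ∈ T0, ell v| + ∑ i, |C1 i| + |C2| +
    (∑ i, (e i : ℝ) + E'.totalDegree) * |CA| + |CB| := ⟨_, rfl⟩
  refine ⟨C, fun s M U lam hs1 hs0 hM hsM hU hlam hsU hsU' hclose hne => ?_⟩
  set x : Fin (n + 1) → K := wpnt w z (fun i => (s i : K)) with hx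
  have hU0 : 0 < U := by linarith
  -- values
  have hFev : MvPolynomial.eval x F = (∏ j, (z j * (s j : K) ^ w j)) *
      (∏ i, MvPolynomial.eval x (P i)) * MvPolynomial.eval x E := by
    rw [hE, map_mul, map_mul, map_prod, map_prod]
    congr 2
    refine Finset.prod_congr rfl fun j _ => ?_
    rw [MvPolynomial.eval_X]
    rfl
  rw [hFev] at hne
  have hneE : MvPolynomial.eval x E ≠ 0 := right_ne_zero_of_mul hne
  have hneP : ∀ i, MvPolynomial.eval x (P i) ≠ 0 := by
    have h1 := right_ne_zero_of_mul (left_ne_zero_of_mul hne)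
    intro i
    exact Finset.prod_ne_zero_iff.mp h1 i (mem_univ i)
  -- the list of numbers
  set u : Option (Option (Fin l)) → K := fun o => match o with
    | none => (M : K)
    | some none => MvPolynomial.eval (fun i => (s i : K)) QE
    | some (some i) => MvPolynomial.eval (fun i => (s i : K)) (Q i) with hu
  have hu0 : ∀ o, u o ≠ 0 := by
    rintro (_ | _ | i)
    · simp only [hu]
      exact_mod_cast hM.ne'
    · simp only [hu]
      rw [hQEev]
      exact mul_ne_zero hNE0 hneE
    · simp only [hu]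
      rw [hQev]
      exact mul_ne_zero (hN0 i) (hneP i)
  have key : ∀ v, WBad v F d w x → v ∈ T0 ∨ ∃ o ∈ (univ : Finset (Option (Option (Fin l)))), fv v (u o) < 1 := by
    intro v hbad
    by_cases hv : v ∈ T0
    · exact Or.inl hv
    right
    by_contra hcon
    push Not at hcon
    have g1 : 1 ≤ fv v (M : K) := hcon none (mem_univ _)
    have g2 : 1 ≤ fv v (MvPolynomial.eval (fun i => (s i : K)) QE) := hcon (some none) (mem_univ _)
    have g3 : ∀ i, 1 ≤ fv v (MvPolynomial.eval (fun i => (s i : K)) (Q i)) :=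
      fun i => hcon (some (some i)) (mem_univ _)
    have hval : 1 ≤ fv v (MvPolynomial.eval x F) := by
      rw [hFev, map_mul, map_mul, map_prod, map_prod]
      have e1 : ∏ j, fv v (z j * (s j : K) ^ w j) = 1 := by
        refine Finset.prod_eq_one fun j _ => ?_
        rw [map_mul, hcz v hv j, one_mul, map_pow, fv_smooth v g1 (s j) (hs0 j) (hsM j), one_pow]
      have e2 : 1 ≤ ∏ i, fv v (MvPolynomial.eval x (P i)) := by
        have e4 : ∀ i ∈ (univ : Finset (Fin l)), (1 : ℝ) ≤ fv v (MvPolynomial.eval x (P i)) := by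
          intro i _
          have := g3 i
          rwa [hQev, map_mul, hcN v hv i, one_mul] at this
        have e5 := Finset.prod_le_prod (f := fun _ : Fin l => (1 : ℝ)) (fun i _ => zero_le_one) e4
        rwa [Finset.prod_const_one] at e5
      have e3 : 1 ≤ fv v (MvPolynomial.eval x E) := by
        have := g2
        rwa [hQEev, map_mul, hcNE v hv, one_mul] at this
      rw [e1, one_mul]
      exact one_le_mul_of_one_le_of_one_le e2 e3
    unfold WBad at hbad
    have hs1' : (⨆ m, fv v (F.coeff m)) ≤ 1 := ciSup_le fun m => hcF v hv m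
    have hs2 : size v w x = 1 := size_one v hw z s (hcz v hv) hs1
    rw [hs2, one_pow, mul_one] at hbad
    linarith
  -- the height
  have hxpow : (fun j => x j ^ (∏ i ∈ univ.erase j, w i)) =
      fun j => ζ j * ((fun i => (s i : K)) ^ W) j := by
    funext j
    rw [hx, hζ]
    simp only [wpnt, Pi.pow_apply]
    rw [mul_pow, ← pow_mul, hWj]
  have hpowh : logHeight ((fun i => (s i : K)) ^ W) = W * logHeight (fun i => (s i : K)) :=
    logHeight_pow _ _
  have hWcast : (∏ i, (w i : ℝ)) = W := by rw [hW]; push_cast; rfl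
  have hh1 : (totalWeight K : ℝ) * Real.log U ≤ wheight w x + |CA| := by
    obtain ⟨j, hj⟩ := hsU'
    rw [← hj]
    have h1 := height_nat (K := K) s hs1 hs0 j
    have h2 := hCA (fun j => x j ^ (∏ i ∈ univ.erase j, w i))
    have h3 : (fun j => (ζ j)⁻¹ * (fun j => x j ^ (∏ i ∈ univ.erase j, w i)) j) =
        (fun i => (s i : K)) ^ W := by
      rw [hxpow]
      funext j
      simp only
      rw [inv_mul_cancel_left₀ (hζ0 j)]
    rw [h3, hpowh] at h2
    have h4 : wheight w x + |CA| =
        (logHeight (fun j => x j ^ (∏ i ∈ univ.erase j, w i)) + W * |CA|) / W := by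
      unfold wheight
      rw [hWcast]
      field_simp
    rw [h4, le_div_iff₀ hWR]
    have h5 := le_abs_self CA
    have h6 : |CA| * 1 ≤ |CA| * W := by
      have : (1 : ℝ) ≤ W := by exact_mod_cast hW0
      gcongr
    calc (totalWeight K : ℝ) * Real.log (s j) * W ≤ logHeight (fun i => (s i : K)) * W := by gcongr
      _ ≤ _ := by linarith
  have hh2 : wheight w x ≤ (totalWeight K : ℝ) * Real.log U + |CB| := by
    have h2 := hCB ((fun i => (s i : K)) ^ W)
    rw [← hxpow, hpowh] at h2
    have h4 : logHeight (fun i => (s i : K)) ≤ (totalWeight K : ℝ) * Real.log U := by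
      refine logHeight_le_of ?_ hU0 ?_ ?_
      · intro h
        have := congrFun h 0
        simp only [Pi.zero_apply, Nat.cast_eq_zero] at this
        exact (hs0 0).ne' this
      · intro w i
        have h5 : w (s i : K) = s i := by simp
        rw [h5]
        exact hsU i
      · intro v i
        exact fv_nat v _
    unfold wheight
    rw [hWcast, div_le_iff₀ hWR]
    have h5 := le_abs_self CB
    have h6 : |CB| * 1 ≤ |CB| * W := by
      have : (1 : ℝ) ≤ W := by exact_mod_cast hW0
      gcongr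
    calc _ ≤ W * logHeight (fun i => (s i : K)) + CB := h2
      _ ≤ W * ((totalWeight K : ℝ) * Real.log U) + CB := by gcongr
      _ ≤ _ := by linarith
  have hlog0 : 0 ≤ Real.log U := Real.log_nonneg hU
  refine ⟨?_, fun T hT => ?_, ?_⟩
  · refine (T0.finite_toSet.union (Set.finite_iUnion fun o => fv_support_finite (hu0 o))).subset ?_
    intro v hv
    rcases key v hv with h | ⟨o, -, h⟩
    · exact Or.inl h
    · exact Or.inr (Set.mem_iUnion.mpr ⟨o, h.ne⟩)
  · have h1 := sum_union_le univ u (fun o _ => hu0 o) T0 T (fun v hv => key v (hT v hv))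
    rw [Fintype.sum_option, Fintype.sum_option] at h1
    simp only [hu] at h1
    have q1 : logHeight₁ (M : K) = (totalWeight K : ℝ) * Real.log M := logHeight₁_nat hM
    have q2 := hC2 s U hU hsU
    have q3 : ∑ i, logHeight₁ (MvPolynomial.eval (fun i => (s i : K)) (Q i)) ≤
        ∑ i, ((totalWeight K : ℝ) * (Real.log lam + e i * Real.log U) + |C1 i|) := by
      refine Finset.sum_le_sum fun i _ => ?_
      have := hC1 i s U lam hU hlam hsU hclose (hu0 (some (some i)))
      have h2 := le_abs_self (C1 i)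
      linarith
    have q4 : ∑ i, ((totalWeight K : ℝ) * (Real.log lam + e i * Real.log U) + |C1 i|) =
        (totalWeight K : ℝ) * (l * Real.log lam) + (∑ i, (e i : ℝ)) * (totalWeight K * Real.log U) +
          ∑ i, |C1 i| := by
      rw [Finset.sum_add_distrib, ← Finset.mul_sum, Finset.sum_add_distrib, Finset.sum_const, card_univ,
        Fintype.card_fin, nsmul_eq_mul, ← Finset.sum_mul]
      ring
    have q5 : (totalWeight K : ℝ) * (QE.totalDegree * Real.log U) ≤
        E'.totalDegree * (totalWeight K * Real.log U) := by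
      have : (QE.totalDegree : ℝ) ≤ E'.totalDegree := by exact_mod_cast hQEdeg
      calc (totalWeight K : ℝ) * (QE.totalDegree * Real.log U) ≤
          totalWeight K * (E'.totalDegree * Real.log U) := by gcongr
        _ = _ := by ring
    have q6 : ((∑ i, (e i : ℝ)) + E'.totalDegree) * (totalWeight K * Real.log U) ≤
        ((∑ i, (e i : ℝ)) + E'.totalDegree) * (wheight w x + |CA|) := by
      have h0 : 0 ≤ (∑ i, (e i : ℝ)) + E'.totalDegree := by positivity
      gcongr
    have q7 : (d : ℝ) - ∑ j, (w j : ℝ) = (∑ i, (e i : ℝ)) + E'.totalDegree := by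
      rw [hdeg]; push_cast; ring
    have q8 := le_abs_self (∑ v ∈ T0, ell v)
    have q9 := le_abs_self C2
    have q10 := abs_nonneg CB
    rw [q7, hC]
    linarith
  · rw [hC]
    have h3 : 0 ≤ ∑ i, |C1 i| := Finset.sum_nonneg fun i _ => abs_nonneg _
    have h4 : 0 ≤ (∑ i, (e i : ℝ) + E'.totalDegree) * |CA| := by positivity
    have h5 := abs_nonneg (∑ v ∈ T0, ell v)
    have h6 := abs_nonneg C2
    linarith

end Pool.Agent.L5helper15.ST
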