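import Pool.Agent.L5helper15.ST.WCore

set_option autoImplicit false

/-! # The lower bound for the error term for weighted projective stacks -/

namespace Pool.Agent.L5helper15.ST

open NumberField IsDedekindDomain Height Finset Filter
open Pool.Agent.W231.V (ell fv fv_na fv_nat logHeight_le_of fv_support_finite sum_union_le
  logHeight₁_nat hom_eval₂)

/-- avoiding a hypersurface with a tuple from a large set -/
theorem wavoid {Ω : Type*} [Field Ω] [CharZero Ω] {n D : ℕ}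
    (G : MvPolynomial (Fin (n + 1)) Ω) (hG : G ≠ 0) (hGD : G.totalDegree ≤ D)
    (A : Finset ℕ) (hA : D < A.card) : ∃ s : Fin (n + 1) → ℕ, (∀ j, s j ∈ A) ∧
      MvPolynomial.eval (fun i => (s i : Ω)) G ≠ 0 := by
  classical
  by_contra hcon
  push Not at hcon
  apply hG
  have hcard : (A.image (fun a : ℕ => (a : Ω))).card = A.card :=
    Finset.card_image_of_injective _ Nat.cast_injective
  refine MvPolynomial.eq_zero_of_eval_zero_at_prod_finset G (fun _ => A.image (fun a : ℕ => (a : Ω))) ?_ ?_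
  · intro i
    rw [hcard]
    exact lt_of_le_of_lt ((MvPolynomial.degreeOf_le_totalDegree _ _).trans hGD) hA
  · intro x hx
    choose s hs using fun i => Finset.mem_image.mp (hx i)
    have hxs : x = fun i => (s i : Ω) := funext fun i => (hs i).2.symm
    rw [hxs]
    exact hcon s (fun j => (hs j).1)

theorem wmain {K : Type*} [Field K] [NumberField K] {n l d : ℕ} (hl : 1 ≤ l)
    (w : Fin (n + 1) → ℕ) (hw : ∀ j, 0 < w j) (F : MvPolynomial (Fin (n + 1)) K)
    (hF : F ≠ 0) (hFd : F.IsWeightedHomogeneous w d) (P : Fin l → MvPolynomial (Fin (n + 1)) K)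
    (e : Fin l → ℕ) (hP : ∀ i, (P i).IsWeightedHomogeneous w (e i))
    (hdiv : (∏ j, MvPolynomial.X j) * (∏ i, P i) ∣ F)
    (z : Fin (n + 1) → K) (hz : ∀ i, MvPolynomial.eval z (P i) = 0) (hz0 : ∀ j, z j ≠ 0) :
    ∃ c : ℝ, 0 < c ∧ ∃ H₀ : ℝ, ∀ H : ℝ, H₀ ≤ H → ∀ (Ω : Type*) [Field Ω] [Algebra K Ω]
      (G : MvPolynomial (Fin (n + 1)) Ω) (δ : ℕ), G ≠ 0 → G.IsWeightedHomogeneous w δ →
      (δ : ℝ) ≤ Real.exp (c * (H ^ ((l : ℝ) / (l + 1)) / Real.log H)) →
      ∃ x : Fin (n + 1) → K, (∀ v : HeightOneSpectrum (𝓞 K), size v w x = 1 ∨ size v w x = size v w z) ∧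
        MvPolynomial.eval x F ≠ 0 ∧
        MvPolynomial.eval (fun j => algebraMap K Ω (x j)) G ≠ 0 ∧ wheight w x ≤ H ∧
        {v : HeightOneSpectrum (𝓞 K) | WBad v F d w x}.Finite ∧
        ∀ T : Finset (HeightOneSpectrum (𝓞 K)), (∀ v ∈ T, WBad v F d w x) →
          ∑ v ∈ T, ell v ≤ ((d : ℝ) - ∑ j, (w j : ℝ)) * wheight w x -
            c * (H ^ ((l : ℝ) / (l + 1)) / Real.log H) := by
  classical
  obtain ⟨C, hC⟩ := wcore w hw F hF hFd P e hP hdiv z hz hz0
  -- the primes where `z` is not a unit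
  have hbadfin : ({v : HeightOneSpectrum (𝓞 K) | ∃ j, fv v (z j) ≠ 1}).Finite := by
    have h1 : {v : HeightOneSpectrum (𝓞 K) | ∃ j, fv v (z j) ≠ 1} = ⋃ j, {v | fv v (z j) ≠ 1} := by
      ext v
      simp
    rw [h1]
    exact Set.finite_iUnion fun j => fv_support_finite (hz0 j)
  obtain ⟨R, hR⟩ := exists_R hbadfin.toFinset
  obtain ⟨c₁, hc₁, h₁, hsel⟩ := selectR R l hl
  obtain ⟨θ, hθ⟩ : ∃ θ : ℝ, θ = (l : ℝ) / (l + 1) := ⟨_, rfl⟩
  have hl0 : (1 : ℝ) ≤ l := by exact_mod_cast hl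
  have hθ0 : 0 < θ := by rw [hθ]; positivity
  have hθ1 : θ ≤ 1 := by
    rw [hθ, div_le_one (by positivity)]; linarith
  rw [← hθ] at hsel ⊢
  obtain ⟨ω, hω⟩ : ∃ ω : ℝ, ω = (totalWeight K : ℝ) := ⟨_, rfl⟩
  have hw1 : 1 ≤ ω := by
    rw [hω]
    exact_mod_cast totalWeight_pos (K := K)
  have hw0 : 0 < ω := by linarith
  obtain ⟨c, hc⟩ : ∃ c : ℝ, c = c₁ / (8 * ω) := ⟨_, rfl⟩
  have hc0 : 0 < c := by rw [hc]; positivity
  -- asymptotics
  have hElim : Tendsto (fun H : ℝ => H ^ θ / Real.log H) atTop atTop := by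
    rw [tendsto_atTop]
    intro b
    have h1 := (isLittleO_log_rpow_atTop hθ0).bound (show (0 : ℝ) < 1 / (|b| + 1) by positivity)
    filter_upwards [h1, eventually_gt_atTop 1] with H h2 h3
    have h4 : 0 < Real.log H := Real.log_pos h3
    rw [Real.norm_of_nonneg h4.le, Real.norm_of_nonneg (by positivity), one_div, inv_mul_eq_div,
      le_div_iff₀ (by positivity)] at h2
    rw [le_div_iff₀ h4]
    have := le_abs_self b
    calc b * Real.log H ≤ (|b| + 1) * Real.log H := by gcongr; linarith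
      _ = Real.log H * (|b| + 1) := by ring
      _ ≤ _ := h2
  have hev : ∀ᶠ H : ℝ in atTop, 2 * ω ≤ H ∧ 1 < H / (2 * ω) ∧ h₁ ≤ H / (2 * ω) ∧ 2 * |C| ≤ H ∧
      (|C| + d + 2) / c ≤ H ^ θ / Real.log H := by
    have h1 : Tendsto (fun H : ℝ => H / (2 * ω)) atTop atTop :=
      tendsto_id.atTop_div_const (by positivity)
    filter_upwards [eventually_ge_atTop (2 * ω), h1.eventually_gt_atTop 1, h1.eventually_ge_atTop h₁,
      eventually_ge_atTop (2 * |C|), hElim.eventually_ge_atTop ((|C| + d + 2) / c)] with H a1 a2 a3 a4 a5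
    exact ⟨a1, a2, a3, a4, a5⟩
  obtain ⟨H₀, hH₀⟩ := eventually_atTop.mp hev
  refine ⟨c, hc0, H₀, fun H hH Ω _ _ G δ hG hGδ hδ => ?_⟩
  obtain ⟨a1, a2, a3, a4, a5⟩ := hH₀ H hH
  have : CharZero Ω := charZero_of_injective_algebraMap (algebraMap K Ω).injective
  have : Infinite Ω := CharZero.infinite Ω
  obtain ⟨h, hh⟩ : ∃ h : ℝ, h = H / (2 * ω) := ⟨_, rfl⟩
  rw [← hh] at a2 a3
  obtain ⟨EH, hEH⟩ : ∃ EH : ℝ, EH = H ^ θ / Real.log H := ⟨_, rfl⟩
  rw [← hEH] at a5 hδ ⊢
  have hH1 : 1 < H := by linarith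
  have hH0 : 0 < H := by linarith
  have hh0 : 0 < h := by linarith
  have hlogH : 0 < Real.log H := Real.log_pos hH1
  have hlogh : 0 < Real.log h := Real.log_pos a2
  have hhH : h ≤ H := by
    rw [hh]
    exact div_le_self hH0.le (by linarith)
  have hcEH : |C| + d + 2 ≤ c * EH := by
    rw [div_le_iff₀ hc0] at a5
    linarith
  have hCabs := abs_nonneg C
  have hd0 : (0 : ℝ) ≤ d := Nat.cast_nonneg d
  -- comparison of `E(h)` and `E(H)`
  have hE4 : 4 * (c * EH) ≤ c₁ * (h ^ θ / Real.log h) := by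
    have e1 : H ^ θ / (2 * ω) ≤ h ^ θ := by
      rw [hh, Real.div_rpow hH0.le (by positivity)]
      apply div_le_div_of_nonneg_left (by positivity) (by positivity)
      calc (2 * ω) ^ θ ≤ (2 * ω) ^ (1 : ℝ) := Real.rpow_le_rpow_of_exponent_le (by linarith) hθ1
        _ = 2 * ω := Real.rpow_one _
    have e2 : H ^ θ / (2 * ω) / Real.log H ≤ h ^ θ / Real.log h := by
      have : Real.log h ≤ Real.log H := Real.log_le_log hh0 hhH
      gcongr
    calc 4 * (c * EH) = c₁ * (H ^ θ / (2 * ω) / Real.log H) := by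
          rw [hc, hEH]; field_simp; ring
      _ ≤ _ := by gcongr
  -- the class
  obtain ⟨M, A, lam, hM, hlam, hT, hA1, hA2, hfin⟩ := hsel h a3 (δ + d + 1) (by omega) (by
    push_cast
    have e1 : (δ : ℝ) + d + 1 ≤ Real.exp (4 * (c * EH)) := by
      have e2 : c * EH + 1 ≤ Real.exp (c * EH) := Real.add_one_le_exp _
      have e3 : Real.exp (4 * (c * EH)) = Real.exp (c * EH) * Real.exp (3 * (c * EH)) := by
        rw [← Real.exp_add]; congr 1; ring
      have e4 : 3 * (c * EH) + 1 ≤ Real.exp (3 * (c * EH)) := Real.add_one_le_exp _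
      rw [e3]
      have e5 : (2 : ℝ) ≤ Real.exp (3 * (c * EH)) := by linarith
      have e6 : Real.exp (c * EH) * 2 ≤ Real.exp (c * EH) * Real.exp (3 * (c * EH)) := by gcongr
      linarith
    exact e1.trans (Real.exp_le_exp.mpr hE4))
  -- avoid `F G`
  obtain ⟨φ, hφ⟩ : ∃ φ : K →+* Ω, φ = algebraMap K Ω := ⟨_, rfl⟩
  rw [← hφ]
  have hφF : MvPolynomial.map φ F ≠ 0 := by
    intro h0
    exact hF (MvPolynomial.map_injective _ φ.injective (by rw [h0, map_zero]))
  have hφFd : (MvPolynomial.map φ F).IsWeightedHomogeneous w d := by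
    intro m hm
    apply hFd
    intro h0
    apply hm
    rw [MvPolynomial.coeff_map, h0, map_zero]
  have hGF : G * MvPolynomial.map φ F ≠ 0 := mul_ne_zero hG hφF
  obtain ⟨J, hJ⟩ : ∃ J, J = MvPolynomial.aeval (wsub w (fun j => φ (z j))) (G * MvPolynomial.map φ F) :=
    ⟨_, rfl⟩
  have hφz : ∀ j, φ (z j) ≠ 0 := fun j => by
    rw [Ne, map_eq_zero]
    exact hz0 j
  have hJ0 : J ≠ 0 := by
    rw [hJ]
    exact wsub_ne hw hφz hGF
  have hJh : J.IsHomogeneous (δ + d) := by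
    rw [hJ]
    exact wsub_hom w _ (hGδ.mul hφFd)
  obtain ⟨s, hsA, hs⟩ := wavoid J hJ0 hJh.totalDegree_le A (by omega)
  -- divide by the greatest common divisor
  have hspos : ∀ j, 0 < s j := fun j => (hA1 (s j) (hsA j)).1
  obtain ⟨g, hg⟩ : ∃ g : ℕ, g = Finset.univ.gcd s := ⟨_, rfl⟩
  have hgd : ∀ j, g ∣ s j := fun j => by rw [hg]; exact Finset.gcd_dvd (mem_univ j)
  have hg0 : 0 < g := Nat.pos_of_dvd_of_pos (hgd 0) (hspos 0)
  have hgR : (0 : ℝ) < g := by exact_mod_cast hg0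
  set s' : Fin (n + 1) → ℕ := fun j => s j / g with hs'
  have hs1 : Finset.univ.gcd s' = 1 := by
    rw [hs', hg]
    exact Finset.gcd_div_eq_one (mem_univ 0) (hspos 0).ne'
  have hss : ∀ j, s j = g * s' j := fun j => (Nat.mul_div_cancel' (hgd j)).symm
  have hs0 : ∀ j, 0 < s' j := fun j => Nat.div_pos (Nat.le_of_dvd (hspos j) (hgd j)) hg0
  obtain ⟨j0, hj0⟩ := Finite.exists_max s'
  obtain ⟨U, hU⟩ : ∃ U : ℝ, U = (s' j0 : ℝ) := ⟨_, rfl⟩
  have hU1 : 1 ≤ U := by rw [hU]; exact_mod_cast hs0 j0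
  have hsU : ∀ j, (s' j : ℝ) ≤ U := fun j => by rw [hU]; exact_mod_cast hj0 j
  have hclose : ∀ j, |(s' j : ℝ) - s' 0| ≤ lam * U := by
    intro j
    have h1 := hA2 (s j) (hsA j) (s 0) (hsA 0)
    rw [hss j, hss 0] at h1
    push_cast at h1
    rw [← mul_sub, abs_mul, abs_of_pos hgR] at h1
    have h2 : max ((g : ℝ) * s' j) (g * s' 0) ≤ g * U := by
      apply max_le <;> gcongr
      · exact hsU j
      · exact hsU 0
    have h3 : (g : ℝ) * |(s' j : ℝ) - s' 0| ≤ g * (lam * U) := by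
      calc (g : ℝ) * |(s' j : ℝ) - s' 0| ≤ lam * max ((g : ℝ) * s' j) (g * s' 0) := h1
        _ ≤ lam * (g * U) := by gcongr
        _ = _ := by ring
    exact le_of_mul_le_mul_left h3 hgR
  set x : Fin (n + 1) → K := wpnt w z (fun i => (s' i : K)) with hx
  have hJs' : MvPolynomial.eval (fun i => (s' i : Ω)) J ≠ 0 := by
    intro h0
    apply hs
    have h2 : (fun i => (s i : Ω)) = fun i => (g : Ω) * (fun i => (s' i : Ω)) i := by
      funext i
      rw [hss i]
      push_cast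
      rfl
    have h3 : MvPolynomial.eval (fun i => (g : Ω) * (fun i => (s' i : Ω)) i) J =
        (g : Ω) ^ (δ + d) * MvPolynomial.eval (fun i => (s' i : Ω)) J :=
      hom_eval₂ (RingHom.id Ω) hJh _ _
    rw [h2, h3, h0, mul_zero]
  have hwφ : wpnt w (fun j => φ (z j)) (fun i => (s' i : Ω)) = fun j => φ (x j) := by
    funext j
    rw [hx]
    simp [wpnt]
  rw [hJ, eval_wsub, hwφ, map_mul] at hJs'
  have hG' : MvPolynomial.eval (fun j => φ (x j)) G ≠ 0 := left_ne_zero_of_mul hJs'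
  have hF' : MvPolynomial.eval x F ≠ 0 := by
    intro h0
    apply right_ne_zero_of_mul hJs'
    rw [MvPolynomial.eval_map]
    have := (MvPolynomial.eval₂_comp φ x F).symm
    have h3 : MvPolynomial.eval₂ φ (fun j => φ (x j)) F = φ (MvPolynomial.eval x F) := this
    rw [h3, h0, map_zero]
  have hsM : ∀ j p, p.Prime → p ∣ s' j → p ∣ M := by
    intro j p hp hd
    refine ((hA1 (s j) (hsA j)).2.1 p hp ?_).1
    rw [hss j]
    exact Dvd.dvd.mul_left hd _
  have hsR : ∀ j p, p.Prime → p ∣ s' j → R < p := by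
    intro j p hp hd
    refine ((hA1 (s j) (hsA j)).2.1 p hp ?_).2
    rw [hss j]
    exact Dvd.dvd.mul_left hd _
  obtain ⟨r1, r2, r3⟩ := hC s' M U lam hs1 hs0 hM hsM hU1 hlam hsU ⟨j0, hU.symm⟩ hclose hF'
  have hlogU : Real.log U ≤ h := by
    refine le_trans ?_ (hA1 (s j0) (hsA j0)).2.2
    rw [hU]
    apply Real.log_le_log
    · exact_mod_cast hs0 j0
    · have : s' j0 ≤ s j0 := by
        rw [hss j0]
        exact Nat.le_mul_of_pos_left _ hg0
      exact_mod_cast this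
  rw [← hω] at r2 r3
  have hCle := le_abs_self C
  refine ⟨x, fun v => ?_, hF', hG', ?_, r1, fun T hT => ?_⟩
  · by_cases hv : ∀ j, fv v (z j) = 1
    · left
      exact size_one v hw z s' hv hs1
    · right
      push Not at hv
      refine size_eq v hw z s' fun j => hR v ?_ (s' j) (hs0 j) (hsR j)
      rw [Set.Finite.mem_toFinset]
      exact hv
  · refine r3.trans ?_
    have e1 : ω * Real.log U ≤ ω * h := by gcongr
    have e2 : ω * h = H / 2 := by rw [hh]; field_simp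
    linarith
  · refine (r2 T hT).trans ?_
    have e1 : ω * (Real.log M + l * Real.log lam) ≤ ω * (-(c₁ * (h ^ θ / Real.log h))) := by gcongr
    have e2 : c₁ * (h ^ θ / Real.log h) ≤ ω * (c₁ * (h ^ θ / Real.log h)) := by
      have : 0 ≤ c₁ * (h ^ θ / Real.log h) := by positivity
      exact le_mul_of_one_le_left this hw1
    linarith

end Pool.Agent.L5helper15.ST
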