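import Pool.Agent.L5helper15.ST.Core
import Pool.Agent.L5helper15.ST.SelectR

set_option autoImplicit false

/-! # The points `(z_j s_j ^ w_j)` of a weighted projective space -/

namespace Pool.Agent.L5helper15.ST

open NumberField IsDedekindDomain Height Finset
open Pool.Agent.W231.V (ell fv fv_na fv_nat logHeight_le_of fv_support_finite sum_union_le logHeight₁_nat)
open Pool.Agent.W231.G (exists_bad fv_mv_le)

section

variable {K : Type*} [Field K]

/-- the point with parameter `s` -/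
def wpnt {n : ℕ} (w : Fin (n + 1) → ℕ) (z s : Fin (n + 1) → K) (k : Fin (n + 1)) : K := z k * s k ^ w k

/-- the substitution -/
noncomputable def wsub {n : ℕ} (w : Fin (n + 1) → ℕ) (z : Fin (n + 1) → K) (k : Fin (n + 1)) :
    MvPolynomial (Fin (n + 1)) K := MvPolynomial.C (z k) * MvPolynomial.X k ^ w k

theorem wsub_hom1 {n : ℕ} (w : Fin (n + 1) → ℕ) (z : Fin (n + 1) → K) (k : Fin (n + 1)) :
    (wsub w z k).IsHomogeneous (w k) := by
  unfold wsub
  have := (MvPolynomial.isHomogeneous_C (Fin (n + 1)) (z k)).mul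
    ((MvPolynomial.isHomogeneous_X K k).pow (w k))
  rwa [zero_add, one_mul] at this

theorem eval_wsub {n : ℕ} (w : Fin (n + 1) → ℕ) (z s : Fin (n + 1) → K)
    (P : MvPolynomial (Fin (n + 1)) K) :
    MvPolynomial.eval s (MvPolynomial.aeval (wsub w z) P) = MvPolynomial.eval (wpnt w z s) P := by
  rw [MvPolynomial.aeval_def, MvPolynomial.hom_eval₂]
  have h2 : (MvPolynomial.eval s).comp (algebraMap K (MvPolynomial (Fin (n + 1)) K)) =
      RingHom.id K := by ext c; simp
  rw [h2]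
  change MvPolynomial.eval₂ (RingHom.id K) _ P = MvPolynomial.eval₂ (RingHom.id K) _ P
  congr 1
  funext k
  simp [wsub, wpnt]

theorem wsub_hom {n e : ℕ} (w : Fin (n + 1) → ℕ) (z : Fin (n + 1) → K)
    {P : MvPolynomial (Fin (n + 1)) K} (hP : P.IsWeightedHomogeneous w e) :
    (MvPolynomial.aeval (wsub w z) P).IsHomogeneous e := by
  rw [MvPolynomial.aeval_def, MvPolynomial.eval₂_eq']
  refine MvPolynomial.IsHomogeneous.sum _ _ _ fun m hm => ?_
  have h1 : ∑ l, w l * m l = e := by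
    have := hP (MvPolynomial.mem_support_iff.mp hm)
    rw [← this, Finsupp.weight_apply, Finsupp.sum_fintype _ _ (fun _ => by simp)]
    refine Finset.sum_congr rfl fun i _ => ?_
    rw [smul_eq_mul, mul_comm]
  have h2 : (algebraMap K (MvPolynomial (Fin (n + 1)) K) (P.coeff m)).IsHomogeneous 0 := by
    rw [MvPolynomial.algebraMap_eq]
    exact MvPolynomial.isHomogeneous_C _ _
  have h3 := h2.mul (MvPolynomial.IsHomogeneous.prod univ (fun l => wsub w z l ^ m l)
    (fun l => w l * m l) (fun l _ => (wsub_hom1 w z l).pow (m l)))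
  rwa [h1, zero_add] at h3

theorem wsub_ne [Infinite K] {n : ℕ} {w : Fin (n + 1) → ℕ} (hw : ∀ j, 0 < w j) {z : Fin (n + 1) → K}
    (hz : ∀ j, z j ≠ 0) {P : MvPolynomial (Fin (n + 1)) K} (hP : P ≠ 0) :
    MvPolynomial.aeval (wsub w z) P ≠ 0 := by
  classical
  intro h0
  apply hP
  refine MvPolynomial.funext_set (fun j => Set.range fun t : K => z j * t ^ w j) ?_ ?_
  · intro j
    intro hfin
    have h1 : (Set.univ : Set K).Finite := by
      have h2 : (Set.univ : Set K) ⊆ ⋃ y ∈ Set.range (fun t : K => z j * t ^ w j),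
          {t : K | z j * t ^ w j = y} := by
        intro t _
        simp only [Set.mem_iUnion, Set.mem_ofPred_eq, exists_prop]
        exact ⟨_, ⟨t, rfl⟩, rfl⟩
      refine (hfin.biUnion fun y _ => ?_).subset h2
      have h3 : {t : K | z j * t ^ w j = y} ⊆ {t : K | t ∈ (Polynomial.nthRoots (w j) ((z j)⁻¹ * y)).toFinset} := by
        intro t ht
        simp only [Set.mem_ofPred_eq, Multiset.mem_toFinset] at ht ⊢
        rw [Polynomial.mem_nthRoots (hw j), ← ht, inv_mul_cancel_left₀ (hz j)]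
      exact (Finset.finite_toSet _).subset h3
    exact Set.infinite_univ h1
  · intro x hx
    choose t ht using fun j => hx j (Set.mem_univ j)
    have h1 : x = wpnt w z t := funext fun j => (ht j).symm
    rw [h1, ← eval_wsub, h0, map_zero, map_zero]

end

variable {K : Type*} [Field K] [NumberField K]

/-- the size of a vector in the weighted projective space -/
noncomputable def size {n : ℕ} (v : HeightOneSpectrum (𝓞 K)) (w : Fin (n + 1) → ℕ)
    (x : Fin (n + 1) → K) : ℝ := ⨆ j, fv v (x j) ^ (1 / (w j : ℝ))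

/-- the point meets the divisor at `v` -/
def WBad {n : ℕ} (v : HeightOneSpectrum (𝓞 K)) (F : MvPolynomial (Fin (n + 1)) K) (d : ℕ)
    (w : Fin (n + 1) → ℕ) (x : Fin (n + 1) → K) : Prop :=
  fv v (MvPolynomial.eval x F) < (⨆ m, fv v (F.coeff m)) * size v w x ^ d

/-- the height -/
noncomputable def wheight {n : ℕ} (w : Fin (n + 1) → ℕ) (x : Fin (n + 1) → K) : ℝ :=
  logHeight (fun j => x j ^ (∏ i ∈ univ.erase j, w i)) / ∏ i, (w i : ℝ)

theorem fv_pow_rpow (v : HeightOneSpectrum (𝓞 K)) (a t : K) {m : ℕ} (hm : 0 < m) :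
    fv v (a * t ^ m) ^ (1 / (m : ℝ)) = fv v a ^ (1 / (m : ℝ)) * fv v t := by
  rw [map_mul, map_pow, Real.mul_rpow ((fv v).nonneg _) (pow_nonneg ((fv v).nonneg _) _), one_div,
    Real.pow_rpow_inv_natCast ((fv v).nonneg _) hm.ne']

/-- the sup of the absolute values of coprime integers -/
theorem sup_nat {n : ℕ} (v : HeightOneSpectrum (𝓞 K)) (s : Fin (n + 1) → ℕ)
    (hs : Finset.univ.gcd s = 1) : ⨆ i, fv v (s i : K) = 1 := by
  apply le_antisymm
  · exact ciSup_le fun i => fv_nat v _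
  · obtain ⟨a, ha⟩ := bezout (Finset.univ : Finset (Fin (n + 1))) s
    rw [hs] at ha
    have h3 : (∑ i, ((a i : ℤ) : K) * (s i : K)) = 1 := by exact_mod_cast congrArg (Int.cast (R := K)) ha
    have h4 : fv v (∑ i, ((a i : ℤ) : K) * (s i : K)) ≤ ⨆ i, fv v ((s i : K)) := by
      refine fv_sum_le' v _ _ (Real.iSup_nonneg fun i => apply_nonneg _ _) fun i _ => ?_
      rw [map_mul]
      have h5 : fv v ((a i : ℤ) : K) ≤ 1 := fv_int _ isIntegral_algebraMap
      have h6 : fv v (s i : K) ≤ ⨆ i, fv v ((s i : K)) :=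
        Finite.le_ciSup_of_le i le_rfl
      calc _ ≤ 1 * fv v (s i : K) := by
            have := (fv v).nonneg (s i : K)
            gcongr
        _ ≤ _ := by rw [one_mul]; exact h6
    rw [h3, map_one] at h4
    exact h4

/-- natural numbers without small prime factors are units at the given primes -/
theorem exists_R (T : Finset (HeightOneSpectrum (𝓞 K))) : ∃ R : ℕ, ∀ v ∈ T, ∀ s : ℕ, 0 < s →
    (∀ p, p.Prime → p ∣ s → R < p) → fv v (s : K) = 1 := by
  classical
  refine ⟨∑ v ∈ T, Ideal.absNorm v.asIdeal, fun v hv s hs hp => ?_⟩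
  apply le_antisymm (fv_nat v _)
  by_contra hcon
  push Not at hcon
  obtain ⟨N, hN⟩ : ∃ N : ℕ, N = Ideal.absNorm v.asIdeal := ⟨_, rfl⟩
  have hN1 : 1 < N := by
    have := Pool.Agent.W231.V.one_lt_norm v
    rw [hN]
    exact_mod_cast this
  have hNR : N ≤ ∑ v ∈ T, Ideal.absNorm v.asIdeal := by
    rw [hN]
    exact Finset.single_le_sum (f := fun v : HeightOneSpectrum (𝓞 K) => Ideal.absNorm v.asIdeal)
      (fun _ _ => Nat.zero_le _) hv
  have hNv : fv v (N : K) < 1 := by
    have h1 : ((N : 𝓞 K)) ∈ v.asIdeal := by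
      rw [hN]
      exact Ideal.absNorm_mem _
    have h2 := (FinitePlace.norm_lt_one_iff_mem (K := K) v (N : 𝓞 K)).mpr h1
    rw [map_natCast] at h2
    exact h2
  have hcop : Nat.Coprime s N := by
    rw [Nat.coprime_iff_gcd_eq_one]
    by_contra hg
    obtain ⟨p, hpp, hpd⟩ := Nat.exists_prime_and_dvd hg
    have h1 := hp p hpp (hpd.trans (Nat.gcd_dvd_left _ _))
    have h2 := Nat.le_of_dvd (by omega) (hpd.trans (Nat.gcd_dvd_right _ _))
    omega
  have hb := Nat.gcd_eq_gcd_ab s N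
  rw [Nat.coprime_iff_gcd_eq_one.mp hcop] at hb
  have hbK : (1 : K) = (s : K) * ((Nat.gcdA s N : ℤ) : K) + (N : K) * ((Nat.gcdB s N : ℤ) : K) := by
    exact_mod_cast congrArg (Int.cast (R := K)) hb
  have h4 := fv_na v ((s : K) * ((Nat.gcdA s N : ℤ) : K)) ((N : K) * ((Nat.gcdB s N : ℤ) : K))
  rw [← hbK, map_one] at h4
  have h5 : ∀ a : ℤ, fv v ((a : ℤ) : K) ≤ 1 := fun a => fv_int _ isIntegral_algebraMap
  have h6 : fv v ((s : K) * ((Nat.gcdA s N : ℤ) : K)) < 1 := by
    rw [map_mul]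
    exact mul_lt_one_of_nonneg_of_lt_one_left ((fv v).nonneg _) hcon (h5 _)
  have h7 : fv v ((N : K) * ((Nat.gcdB s N : ℤ) : K)) < 1 := by
    rw [map_mul]
    exact mul_lt_one_of_nonneg_of_lt_one_left ((fv v).nonneg _) hNv (h5 _)
  exact absurd h4 (not_le.mpr (max_lt h6 h7))

theorem size_wpnt {n : ℕ} (v : HeightOneSpectrum (𝓞 K)) {w : Fin (n + 1) → ℕ} (hw : ∀ j, 0 < w j)
    (z : Fin (n + 1) → K) (s : Fin (n + 1) → ℕ) :
    size v w (wpnt w z (fun i => (s i : K))) = ⨆ j, fv v (z j) ^ (1 / (w j : ℝ)) * fv v (s j : K) := by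
  unfold size wpnt
  congr 1
  funext j
  exact fv_pow_rpow v _ _ (hw j)

theorem size_one {n : ℕ} (v : HeightOneSpectrum (𝓞 K)) {w : Fin (n + 1) → ℕ} (hw : ∀ j, 0 < w j)
    (z : Fin (n + 1) → K) (s : Fin (n + 1) → ℕ) (hz : ∀ j, fv v (z j) = 1)
    (hs : Finset.univ.gcd s = 1) : size v w (wpnt w z (fun i => (s i : K))) = 1 := by
  rw [size_wpnt v hw]
  simp_rw [hz, Real.one_rpow, one_mul]
  exact sup_nat v s hs

theorem size_eq {n : ℕ} (v : HeightOneSpectrum (𝓞 K)) {w : Fin (n + 1) → ℕ} (hw : ∀ j, 0 < w j)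
    (z : Fin (n + 1) → K) (s : Fin (n + 1) → ℕ) (hs : ∀ j, fv v (s j : K) = 1) :
    size v w (wpnt w z (fun i => (s i : K))) = size v w z := by
  rw [size_wpnt v hw]
  simp_rw [hs, mul_one]
  rfl

end Pool.Agent.L5helper15.ST
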